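import Mathlib
import Pool.Agent.SI.APPS

/-!
# SK: from the core inequality over a number field to zeta values

`SI/APP`, `SI/APP2`, `SI/APPJ`, `SI/APPS` over a field `K` with an embedding `τ : K →+* ℝ`.
-/

namespace Pool.Agent.SK

open Finset Pool.Agent.ZC Pool.Agent.SI

noncomputable section

/-- `∑ 2 (2^i - 1) c_i X^(i-1)` over the odd `i` with `s < i ≤ T` outside `I` -/
def axiK (K : Type) [Field K] (s T : ℕ) (I : Finset ℕ) (c : ℕ → K) : PowerSeries K :=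
  zp K T fun i => if s < i ∧ i ∉ I then c i else 0

/-- the companions -/
def apsK (K : Type) [Field K] (s k0 S d T : ℕ) (I : Finset ℕ) (c : ℕ → Fin d → K) :
    AJ s k0 S d I → PowerSeries K
  | .inl e => PowerSeries.X ^ (e : ℕ)
  | .inr (.inl x) => PowerSeries.X ^ ((x.1 : ℕ) - 1 + k0 - (x.2 : ℕ))
  | .inr (.inr x) => PowerSeries.X ^ (x.2.1 : ℕ) * hs K (x.2.2 : ℕ) (axiK K s T I fun i => c i x.1)

/-- jets modulo `X^a` in the real span of the companions of parity `t` -/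
def GoodK {K : Type} [Field K] (τ : K →+* ℝ) {J : Type} [Fintype J] (ψ : J → PowerSeries K)
    (σ : J → ℕ) (a t : ℕ) (f : PowerSeries ℝ) : Prop :=
  ∃ α : J → ℝ, (∀ j, α j ≠ 0 → σ j = t) ∧ ∀ m < a, PowerSeries.coeff m f =
    ∑ j, α j * τ (PowerSeries.coeff m (ψ j))

end

variable {K : Type} [Field K] (τ : K →+* ℝ)

section good

variable {τ}

variable {J : Type} [Fintype J] {ψ : J → PowerSeries K} {σ : J → ℕ} {a t : ℕ}

theorem GoodK.zero : GoodK τ ψ σ a t 0 := ⟨0, fun j h => absurd rfl h, fun m _ => by simp⟩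

theorem GoodK.add {f g : PowerSeries ℝ} (hf : GoodK τ ψ σ a t f) (hg : GoodK τ ψ σ a t g) :
    GoodK τ ψ σ a t (f + g) := by
  obtain ⟨α, h1, h2⟩ := hf
  obtain ⟨β, h3, h4⟩ := hg
  refine ⟨fun j => α j + β j, fun j hj => ?_, fun m hm => ?_⟩
  · by_cases h : α j = 0
    · refine h3 j fun h' => hj ?_
      change α j + β j = 0
      rw [h, h', add_zero]
    · exact h1 j h
  · rw [map_add, h2 m hm, h4 m hm, ← Finset.sum_add_distrib]
    exact Finset.sum_congr rfl fun j _ => by ring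

theorem GoodK.C_mul {f : PowerSeries ℝ} (c : ℝ) (hf : GoodK τ ψ σ a t f) :
    GoodK τ ψ σ a t (PowerSeries.C c * f) := by
  obtain ⟨α, h1, h2⟩ := hf
  refine ⟨fun j => c * α j, fun j hj => h1 j fun h => hj ?_, fun m hm => ?_⟩
  · change c * α j = 0
    rw [h, mul_zero]
  rw [PowerSeries.coeff_C_mul, h2 m hm, Finset.mul_sum]
  exact Finset.sum_congr rfl fun j _ => by ring

theorem GoodK.sum {ι : Type*} (u : Finset ι) {f : ι → PowerSeries ℝ}
    (h : ∀ i ∈ u, GoodK τ ψ σ a t (f i)) : GoodK τ ψ σ a t (∑ i ∈ u, f i) := by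
  classical
  induction u using Finset.induction_on with
  | empty => simpa using GoodK.zero
  | insert i u hi ih =>
    rw [Finset.sum_insert hi]
    exact (h i (Finset.mem_insert_self _ _)).add (ih fun k hk => h k (Finset.mem_insert_of_mem hk))

theorem GoodK.single (j : J) (hj : σ j = t) :
    GoodK τ ψ σ a t (PowerSeries.map τ (ψ j)) := by
  classical
  refine ⟨fun i => if i = j then 1 else 0, fun i hi => ?_, fun m _ => ?_⟩
  · by_cases h : i = j
    · rw [h, hj]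
    · exact absurd (if_neg h) hi
  · rw [PowerSeries.coeff_map]
    simp [ite_mul]

theorem GoodK.X_pow (n : ℕ) (j : J) (hj : σ j = t) (hψ : ψ j = PowerSeries.X ^ n) :
    GoodK τ ψ σ a t (PowerSeries.X ^ n) := by
  have h := GoodK.single (τ := τ) (ψ := ψ) (a := a) j hj
  rw [hψ, map_pow, PowerSeries.map_X] at h
  exact h

end good

theorem appK_hs_map (r : ℕ) (f : PowerSeries K) :
    hs ℝ r (PowerSeries.map τ f) = PowerSeries.map τ (hs K r f) := by
  ext m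
  rw [coeff_hs, PowerSeries.coeff_map, PowerSeries.coeff_map, coeff_hs, map_mul, map_natCast]

theorem appK_zp_map (T : ℕ) (z : ℕ → K) :
    PowerSeries.map τ (zp K T z) = zp ℝ T fun i => τ (z i) := by
  unfold zp
  rw [map_sum]
  refine Finset.sum_congr rfl fun i _ => ?_
  rw [map_mul, map_pow, PowerSeries.map_X, PowerSeries.map_C]
  congr 2
  rw [map_mul, map_mul, map_sub, map_pow, map_ofNat, map_one]

/-- parity of the companions -/
theorem apsK_parity [CharZero K] (s k0 S d T : ℕ) (I : Finset ℕ) (c : ℕ → Fin d → K) (j : AJ s k0 S d I) :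
    PowerSeries.evalNegHom (apsK K s k0 S d T I c j) =
      PowerSeries.C ((-1 : K) ^ asg s k0 S d I j) * apsK K s k0 S d T I c j := by
  rcases j with e | x | x
  · exact app_parity_X _
  · exact app_parity_X _
  · simp only [apsK, asg, axiK]
    rw [map_mul, sg_hs, ZES_sg_zp, app_parity_X, ← neg_one_pow_eq_pow_mod_two,
      ← neg_one_pow_eq_pow_mod_two, pow_add, map_mul]
    ring

/-- `E` in the span of the companions -/
theorem apsK_H1 (s k0 S d a : ℕ) (I : Finset ℕ) (hS : S ≤ s)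
    (v : Fin d → ℝ) (z : ℕ → K) (c : ℕ → Fin d → K)
    (hz : ∀ i ∈ oddS (a + S), s < i → i ∉ I → zr i = τ (z i) + ∑ x, τ (c i x) * v x)
    (k : ℕ) (hk : k ≤ k0) (r : ℕ) (hr : r ≤ S) :
    GoodK τ (apsK K s k0 S d (a + S) I c) (asg s k0 S d I) a ((k + r) % 2)
      (PowerSeries.X ^ k * hs ℝ r (zp ℝ (a + S) (fun i => zr i -
        τ (if s < i ∧ i ∉ I then z i else 0)))) := by
  have h1 : zp ℝ (a + S) (fun i => zr i - τ (if s < i ∧ i ∉ I then z i else 0)) =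
      (∑ i ∈ oddS (a + S), PowerSeries.C (2 * ((2 : ℝ) ^ i - 1) *
        (if s < i ∧ i ∉ I then 0 else zr i)) * PowerSeries.X ^ (i - 1)) +
      ∑ x, PowerSeries.C (v x) * PowerSeries.map τ (axiK K s (a + S) I fun i => c i x) := by
    have h2 : ∀ x, PowerSeries.C (v x) * PowerSeries.map τ
        (axiK K s (a + S) I fun i => c i x) = ∑ i ∈ oddS (a + S), PowerSeries.C (2 * ((2 : ℝ) ^ i - 1) *
        ((if s < i ∧ i ∉ I then τ (c i x) * v x else 0))) * PowerSeries.X ^ (i - 1) := by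
      intro x
      rw [axiK, appK_zp_map, zp, Finset.mul_sum]
      refine Finset.sum_congr rfl fun i _ => ?_
      rw [← mul_assoc, ← map_mul]
      congr 2
      split_ifs
      · ring
      · simp
    simp only [h2]
    rw [Finset.sum_comm, ← Finset.sum_add_distrib, zp]
    refine Finset.sum_congr rfl fun i hi => ?_
    rw [← Finset.sum_mul, ← add_mul, ← map_sum, ← map_add, ← Finset.mul_sum, ← mul_add]
    congr 3
    split_ifs with h
    · rw [hz i hi h.1 h.2]; ring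
    · simp
  rw [h1, hs_add, mul_add, hs_sum, hs_sum, Finset.mul_sum, Finset.mul_sum]
  refine GoodK.add (GoodK.sum _ fun i hi => ?_) (GoodK.sum _ fun x _ => ?_)
  · rw [hs_C_mul, app_hs_X_pow, app_aux]
    obtain ⟨hi1, hi2⟩ := Finset.mem_filter.1 hi
    rw [Finset.mem_Icc] at hi1
    have hi3 : i % 2 = 1 := Nat.odd_iff.1 hi2
    by_cases hr1 : r ≤ i - 1
    · by_cases hs1 : s < i
      · by_cases hI1 : i ∈ I
        · refine GoodK.C_mul _ (GoodK.X_pow _ (.inr (.inl (⟨i, hI1⟩, ⟨k0 - k + r, by omega⟩))) ?_ ?_)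
          · simp only [asg]; omega
          · simp only [apsK]
            congr 1
            omega
        · rw [if_pos ⟨hs1, hI1⟩]
          simpa using GoodK.zero
      · refine GoodK.C_mul _ (GoodK.X_pow _ (.inl ⟨k + (i - 1 - r), by omega⟩) ?_ ?_)
        · simp only [asg]; omega
        · simp only [apsK]
    · rw [Nat.choose_eq_zero_of_lt (show i - 1 < r by omega)]
      simpa using GoodK.zero
  · rw [hs_C_mul, appK_hs_map]
    have h3 : PowerSeries.X ^ k * (PowerSeries.C (v x) * PowerSeries.map τ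
        (hs K r (axiK K s (a + S) I fun i => c i x))) = PowerSeries.C (v x) *
        PowerSeries.map τ (apsK K s k0 S d (a + S) I c
          (.inr (.inr (x, (⟨k, by omega⟩, ⟨r, by omega⟩))))) := by
      simp only [apsK]
      rw [map_mul, map_pow, PowerSeries.map_X]
      ring
    rw [h3]
    exact GoodK.C_mul _ (GoodK.single _ rfl)

/-- any consequence `Bd` of the core hypotheses for all companion systems containing
`X^e`, `e < s + k0` -/
theorem appK_gen [CharZero K] {Bd : Prop} (g S k0 a s d : ℕ) (I : Finset ℕ) (hSs : S ≤ s)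
    (v : Fin d → ℝ) (z : ℕ → K) (c : ℕ → Fin d → K)
    (hz : ∀ i ∈ oddS (a + S), s < i → i ∉ I → zr i = τ (z i) + ∑ x, τ (c i x) * v x)
    (hi : (g + 2) * (k0 + 1 + (s + k0 + I.card * (S + k0 + 1) + d * ((k0 + 1) * (S + 1)))) +
      (k0 + 1) * (S + 1) + 1 ≤ g * (a - k0))
    (core : ∀ (J : Type) [Fintype J] (ψ : J → PowerSeries K) (σ : J → ℕ), (∀ j, σ j ≤ 1) →
      (∀ j, PowerSeries.evalNegHom (ψ j) = PowerSeries.C ((-1 : K) ^ σ j) * ψ j) → ∀ z : ℕ → K,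
      (g + 2) * (k0 + 1 + Fintype.card J) + (k0 + 1) * (S + 1) + 1 ≤ g * (a - k0) →
      (∀ e < s + k0, ∃ j, σ j = e % 2 ∧ ψ j = PowerSeries.X ^ e) →
      (∀ k ≤ k0, ∀ r ≤ S, ∃ α : J → ℝ, (∀ j, α j ≠ 0 → σ j = (k + r) % 2) ∧ ∀ m < a,
        PowerSeries.coeff m (PowerSeries.X ^ k *
          hs ℝ r (zp ℝ (a + S) (fun i => zr i - τ (z i)))) =
            ∑ j, α j * τ (PowerSeries.coeff m (ψ j))) → Bd) : Bd := by
  refine core (AJ s k0 S d I) (apsK K s k0 S d (a + S) I c) (asg s k0 S d I)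
    (asg_le s k0 S d I) (apsK_parity s k0 S d (a + S) I c)
    (fun i => if s < i ∧ i ∉ I then z i else 0) ?_ (fun e he => ⟨.inl ⟨e, he⟩, rfl, rfl⟩) ?_
  · rw [aj_card]
    exact hi
  · intro k hk r hr
    exact apsK_H1 τ s k0 S d a I hSs v z c hz k hk r hr

noncomputable section

/-- `∑ 2 (2^i - 1) c_i X^(i-1)` over the odd `i ≤ T` outside `I` -/
def bxiK (K : Type) [Field K] (T : ℕ) (I : Finset ℕ) (c : ℕ → K) : PowerSeries K :=
  zp K T fun i => if i ∉ I then c i else 0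

/-- the companions -/
def bpsK (K : Type) [Field K] (k0 S d T : ℕ) (J₀ I : Finset ℕ) (c : ℕ → Fin d → K) :
    BJ k0 S d J₀ → PowerSeries K
  | .inl e => PowerSeries.X ^ (e : ℕ)
  | .inr x => PowerSeries.X ^ (x.2.1 : ℕ) * hs K (x.2.2 : ℕ) (bxiK K T I fun i => c i x.1)

end

/-- parity of the companions -/
theorem bpsK_parity [CharZero K] (k0 S d T : ℕ) (J₀ I : Finset ℕ) (c : ℕ → Fin d → K) (j : BJ k0 S d J₀) :
    PowerSeries.evalNegHom (bpsK K k0 S d T J₀ I c j) =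
      PowerSeries.C ((-1 : K) ^ bsg k0 S d J₀ j) * bpsK K k0 S d T J₀ I c j := by
  rcases j with e | x
  · exact app_parity_X _
  · simp only [bpsK, bsg, bxiK]
    rw [map_mul, sg_hs, ZES_sg_zp, app_parity_X, ← neg_one_pow_eq_pow_mod_two,
      ← neg_one_pow_eq_pow_mod_two, pow_add, map_mul]
    ring

/-- `X^e` for an exponent of `J₀` or for `e ≥ a` -/
theorem goodK_X_pow (k0 S d T a t : ℕ) (J₀ I : Finset ℕ) (c : ℕ → Fin d → K) (e : ℕ)
    (he : e < a → e ∈ J₀) (ht : e % 2 = t) :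
    GoodK τ (bpsK K k0 S d T J₀ I c) (bsg k0 S d J₀) a t (PowerSeries.X ^ e) := by
  by_cases h : e < a
  · exact GoodK.X_pow _ (.inl ⟨e, he h⟩) (by simpa only [bsg] using ht) rfl
  · refine ⟨0, fun j hj => absurd rfl hj, fun m hm => ?_⟩
    rw [PowerSeries.coeff_X_pow, if_neg (by omega)]
    simp

/-- `E` in the span of the companions -/
theorem bpsK_H1 (k0 S d a : ℕ) (J₀ I : Finset ℕ)
    (hI : ∀ i ∈ I, ∀ e < a, i ≤ e + S + 1 → e + 1 ≤ i + k0 → e ∈ J₀)
    (v : Fin d → ℝ) (z : ℕ → K) (c : ℕ → Fin d → K)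
    (hz : ∀ i ∈ oddS (a + S), i ∉ I → zr i = τ (z i) + ∑ x, τ (c i x) * v x)
    (k : ℕ) (hk : k ≤ k0) (r : ℕ) (hr : r ≤ S) :
    GoodK τ (bpsK K k0 S d (a + S) J₀ I c) (bsg k0 S d J₀) a ((k + r) % 2)
      (PowerSeries.X ^ k * hs ℝ r (zp ℝ (a + S) (fun i => zr i -
        τ (if i ∉ I then z i else 0)))) := by
  have h1 : zp ℝ (a + S) (fun i => zr i - τ (if i ∉ I then z i else 0)) =
      (∑ i ∈ oddS (a + S), PowerSeries.C (2 * ((2 : ℝ) ^ i - 1) *
        (if i ∉ I then 0 else zr i)) * PowerSeries.X ^ (i - 1)) +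
      ∑ x, PowerSeries.C (v x) * PowerSeries.map τ (bxiK K (a + S) I fun i => c i x) := by
    have h2 : ∀ x, PowerSeries.C (v x) * PowerSeries.map τ
        (bxiK K (a + S) I fun i => c i x) = ∑ i ∈ oddS (a + S), PowerSeries.C (2 * ((2 : ℝ) ^ i - 1) *
        ((if i ∉ I then τ (c i x) * v x else 0))) * PowerSeries.X ^ (i - 1) := by
      intro x
      rw [bxiK, appK_zp_map, zp, Finset.mul_sum]
      refine Finset.sum_congr rfl fun i _ => ?_
      rw [← mul_assoc, ← map_mul]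
      congr 2
      by_cases h : i ∈ I
      · simp [h]
      · simp only [h, not_false_eq_true, if_true]
        ring
    simp only [h2]
    rw [Finset.sum_comm, ← Finset.sum_add_distrib, zp]
    refine Finset.sum_congr rfl fun i hi => ?_
    rw [← Finset.sum_mul, ← add_mul, ← map_sum, ← map_add, ← Finset.mul_sum, ← mul_add]
    congr 3
    by_cases h : i ∈ I
    · simp [h]
    · simp only [h, not_false_eq_true, if_true]
      rw [hz i hi h]; ring
  rw [h1, hs_add, mul_add, hs_sum, hs_sum, Finset.mul_sum, Finset.mul_sum]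
  refine GoodK.add (GoodK.sum _ fun i hi => ?_) (GoodK.sum _ fun x _ => ?_)
  · rw [hs_C_mul, app_hs_X_pow, app_aux]
    obtain ⟨hi1, hi2⟩ := Finset.mem_filter.1 hi
    rw [Finset.mem_Icc] at hi1
    have hi3 : i % 2 = 1 := Nat.odd_iff.1 hi2
    by_cases hr1 : r ≤ i - 1
    · by_cases hI1 : i ∈ I
      · refine GoodK.C_mul _ (goodK_X_pow _ _ _ _ _ _ _ _ _ _ _ (fun he => ?_) (by omega))
        exact hI i hI1 _ he (by omega) (by omega)
      · rw [if_pos hI1]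
        simpa using GoodK.zero
    · rw [Nat.choose_eq_zero_of_lt (show i - 1 < r by omega)]
      simpa using GoodK.zero
  · rw [hs_C_mul, appK_hs_map]
    have h3 : PowerSeries.X ^ k * (PowerSeries.C (v x) * PowerSeries.map τ
        (hs K r (bxiK K (a + S) I fun i => c i x))) = PowerSeries.C (v x) *
        PowerSeries.map τ (bpsK K k0 S d (a + S) J₀ I c
          (.inr (x, (⟨k, by omega⟩, ⟨r, by omega⟩)))) := by
      simp only [bpsK]
      rw [map_mul, map_pow, PowerSeries.map_X]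
      ring
    rw [h3]
    exact GoodK.C_mul _ (GoodK.single _ rfl)

/-- any consequence `Bd` of the core hypotheses, companions `X^e`, `e ∈ J₀` -/
theorem appK_genJ [CharZero K] {Bd : Prop} (g S k0 a d : ℕ) (I J₀ : Finset ℕ)
    (h0 : ∀ k ≤ k0, k < a → k ∈ J₀)
    (hI : ∀ i ∈ I, ∀ e < a, i ≤ e + S + 1 → e + 1 ≤ i + k0 → e ∈ J₀)
    (v : Fin d → ℝ) (z : ℕ → K) (c : ℕ → Fin d → K)
    (hz : ∀ i ∈ oddS (a + S), i ∉ I → zr i = τ (z i) + ∑ x, τ (c i x) * v x)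
    (hi : (g + 2) * (k0 + 1 + (J₀.card + d * ((k0 + 1) * (S + 1)))) +
      (k0 + 1) * (S + 1) + 1 ≤ g * (a - k0))
    (core : ∀ (J : Type) [Fintype J] (ψ : J → PowerSeries K) (σ : J → ℕ), (∀ j, σ j ≤ 1) →
      (∀ j, PowerSeries.evalNegHom (ψ j) = PowerSeries.C ((-1 : K) ^ σ j) * ψ j) → ∀ z : ℕ → K,
      (g + 2) * (k0 + 1 + Fintype.card J) + (k0 + 1) * (S + 1) + 1 ≤ g * (a - k0) →
      (∀ k ≤ k0, ∃ j, σ j = k % 2 ∧ ψ j = PowerSeries.X ^ k) →
      (∀ e ∈ J₀, ∃ j, σ j = e % 2 ∧ ψ j = PowerSeries.X ^ e) →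
      (∀ k ≤ k0, ∀ r ≤ S, ∃ α : J → ℝ, (∀ j, α j ≠ 0 → σ j = (k + r) % 2) ∧ ∀ m < a,
        PowerSeries.coeff m (PowerSeries.X ^ k *
          hs ℝ r (zp ℝ (a + S) (fun i => zr i - τ (z i)))) =
            ∑ j, α j * τ (PowerSeries.coeff m (ψ j))) → Bd) : Bd := by
  have hka : k0 < a := by
    by_contra h
    have : g * (a - k0) = 0 := by
      rw [show a - k0 = 0 by omega, mul_zero]
    omega
  have hJ : ∀ e ∈ J₀, ∃ j, bsg k0 S d J₀ j = e % 2 ∧
      bpsK K k0 S d (a + S) J₀ I c j = PowerSeries.X ^ e := fun e he => ⟨.inl ⟨e, he⟩, rfl, rfl⟩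
  refine core (BJ k0 S d J₀) (bpsK K k0 S d (a + S) J₀ I c) (bsg k0 S d J₀)
    (bsg_le k0 S d J₀) (bpsK_parity k0 S d (a + S) J₀ I c)
    (fun i => if i ∉ I then z i else 0) ?_ (fun k hk => hJ k (h0 k hk (by omega))) hJ ?_
  · rw [bj_card]
    exact hi
  · intro k hk r hr
    exact bpsK_H1 τ k0 S d a J₀ I hI v z c hz k hk r hr

/-- the second core inequality over number fields -/
def Core2K : Prop := ∃ C : ℝ, 0 < C ∧ ∀ (K : Type) [Field K] [NumberField K] (τ : K →+* ℝ)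
    (g S k0 a : ℕ), 1 ≤ g → 1 ≤ a → g ≤ a → S ≤ a →
    ∀ (J : Type) [Fintype J] (ψ : J → PowerSeries K) (σ : J → ℕ), (∀ j, σ j ≤ 1) →
    (∀ j, PowerSeries.evalNegHom (ψ j) = PowerSeries.C ((-1 : K) ^ σ j) * ψ j) → ∀ z : ℕ → K,
    (g + 2) * (k0 + 1 + Fintype.card J) + (k0 + 1) * (S + 1) + 1 ≤ g * (a - k0) →
    ∀ J0 : Finset ℕ, (∀ e ∈ J0, e < a) → (∀ e ∈ J0, ∃ j, σ j = e % 2 ∧ ψ j = PowerSeries.X ^ e) →
    (∀ k ≤ k0, ∃ j, σ j = k % 2 ∧ ψ j = PowerSeries.X ^ k) →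
    (∀ k ≤ k0, ∀ r ≤ S, ∃ α : J → ℝ, (∀ j, α j ≠ 0 → σ j = (k + r) % 2) ∧ ∀ m < a,
      PowerSeries.coeff m (PowerSeries.X ^ k *
        hs ℝ r (zp ℝ (a + S) (fun i => zr i - τ (z i)))) =
          ∑ j, α j * τ (PowerSeries.coeff m (ψ j))) →
    ((k0 : ℝ) + 1) * ((S : ℝ) + 1) ^ 2 ≤
      C * Module.finrank ℚ K * (g : ℝ) ^ 2 * (1 + Real.log g) * ((a : ℝ) - J0.card) * (1 + Real.log a)

/-- general exponent set -/
theorem sk_appJ_of (H : Core2K) : ∃ C : ℝ, 0 < C ∧ ∀ (K : Type) [Field K] [NumberField K]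
    (τ : K →+* ℝ) (g S k0 a d : ℕ) (I J₀ : Finset ℕ), 1 ≤ g →
    1 ≤ a → g ≤ a → S ≤ a → (∀ e ∈ J₀, e < a) → (∀ k ≤ k0, k < a → k ∈ J₀) →
    (∀ i ∈ I, ∀ e < a, i ≤ e + S + 1 → e + 1 ≤ i + k0 → e ∈ J₀) →
    ∀ (v : Fin d → ℝ) (z : ℕ → K) (c : ℕ → Fin d → K),
    (∀ i ∈ oddS (a + S), i ∉ I → zr i = τ (z i) + ∑ x, τ (c i x) * v x) →
    (g + 2) * (k0 + 1 + (J₀.card + d * ((k0 + 1) * (S + 1)))) +
      (k0 + 1) * (S + 1) + 1 ≤ g * (a - k0) →
    ((k0 : ℝ) + 1) * ((S : ℝ) + 1) ^ 2 ≤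
      C * Module.finrank ℚ K * (g : ℝ) ^ 2 * (1 + Real.log g) * ((a : ℝ) - J₀.card) * (1 + Real.log a) := by
  obtain ⟨C, hC, h⟩ := H
  refine ⟨C, hC, ?_⟩
  intro K _ _ τ g S k0 a d I J₀ hg ha hga hSa hJ h0 hI v z c hz hi
  exact appK_genJ τ g S k0 a d I J₀ h0 hI v z c hz hi
    (fun J _ ψ σ hσ hψ z' hi' H0 HJ H1 => h K τ g S k0 a hg ha hga hSa J ψ σ hσ hψ z' hi' J₀ hJ HJ H0 H1)

/-- initial segment of exponents -/
theorem sk_app2_of (H : Core2K) : ∃ C : ℝ, 0 < C ∧ ∀ (K : Type) [Field K] [NumberField K]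
    (τ : K →+* ℝ) (g S k0 a s d : ℕ) (I : Finset ℕ), 1 ≤ g →
    1 ≤ a → g ≤ a → S ≤ a → 1 ≤ s → S ≤ s → I ⊆ oddS (a + S) → (∀ i ∈ I, s < i) →
    ∀ (v : Fin d → ℝ) (z : ℕ → K) (c : ℕ → Fin d → K),
    (∀ i ∈ oddS (a + S), s < i → i ∉ I → zr i = τ (z i) + ∑ x, τ (c i x) * v x) →
    (g + 2) * (k0 + 1 + (s + k0 + I.card * (S + k0 + 1) + d * ((k0 + 1) * (S + 1)))) +
      (k0 + 1) * (S + 1) + 1 ≤ g * (a - k0) →
    ((k0 : ℝ) + 1) * ((S : ℝ) + 1) ^ 2 ≤
      C * Module.finrank ℚ K * (g : ℝ) ^ 2 * (1 + Real.log g) * ((a : ℝ) - s - k0) * (1 + Real.log a) := by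
  obtain ⟨C, hC, h⟩ := H
  refine ⟨C, hC, ?_⟩
  intro K _ _ τ g S k0 a s d I hg ha hga hSa hs1 hSs _ _ v z c hz hi
  have hle : s + k0 ≤ a := by
    have h1 : g * (s + k0) ≤ (g + 2) * (k0 + 1 + (s + k0 + I.card * (S + k0 + 1) +
        d * ((k0 + 1) * (S + 1)))) := Nat.mul_le_mul (by omega) (by omega)
    have h2 : g * (s + k0) ≤ g * (a - k0) := by omega
    have h3 := Nat.le_of_mul_le_mul_left h2 (by omega)
    omega
  have hfin := appK_gen τ g S k0 a s d I hSs v z c hz hi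
    (fun J _ ψ σ hσ hψ z' hi' HJ H1 => h K τ g S k0 a hg ha hga hSa J ψ σ hσ hψ z' hi' (range (s + k0))
      (fun e he => by rw [mem_range] at he; omega) (fun e he => HJ e (mem_range.1 he))
      (fun k hk => HJ k (by omega)) H1)
  rw [card_range] at hfin
  refine hfin.trans (le_of_eq ?_)
  push_cast
  ring


end Pool.Agent.SK
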