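import Pool.Agent.SK.APPSK
import Pool.Agent.SK.NUMSK

/-!
# SK: the theorem on short intervals over number fields, from the application theorem
-/

namespace Pool.Agent.SK

open Finset Pool.Agent.ZC Pool.Agent.SI

/-- a basis of `V` and coordinates in `K` -/
theorem FINSK_data (K : IntermediateField ℚ ℝ) (V : Submodule K ℝ) [Module.Finite K V] :
    ∃ (v : Fin (Module.finrank K V) → ℝ) (z : ℕ → K) (c : ℕ → Fin (Module.finrank K V) → K),
      ∀ i : ℕ, (∃ w ∈ V, ∃ q : K, zr i = q + w) →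
        zr i = (z i : ℝ) + ∑ x, (c i x : ℝ) * v x := by
  classical
  set bs : Module.Basis (Fin (Module.finrank K V)) K V := Module.finBasis K V with hbs
  have hz : ∀ i : ℕ, ∃ (q : K) (c : Fin (Module.finrank K V) → K),
      (∃ w ∈ V, ∃ q : K, zr i = q + w) → zr i = q + ∑ k, (c k : ℝ) * (bs k : ℝ) := by
    intro i
    by_cases hP : ∃ w ∈ V, ∃ q : K, zr i = q + w
    · obtain ⟨w, hw, q, hq⟩ := hP
      refine ⟨q, fun k => bs.repr ⟨w, hw⟩ k, fun _ => ?_⟩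
      have h1 := bs.sum_repr ⟨w, hw⟩
      have h2 := congrArg (Submodule.subtype V) h1
      rw [map_sum] at h2
      simp only [map_smul, Submodule.subtype_apply] at h2
      have h3 : ∑ k, ((bs.repr ⟨w, hw⟩ k : K) : ℝ) * (bs k : ℝ) = w := h2
      exact hq.trans (congrArg (fun t => (q : ℝ) + t) h3.symm)
    · exact ⟨0, 0, fun h => absurd h hP⟩
  choose z cc hzc using hz
  exact ⟨fun k => (bs k : ℝ), z, cc, hzc⟩

/-- the two `ℚ`-structures of an intermediate field -/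
theorem FINSK_numberField (K : IntermediateField ℚ ℝ) [FiniteDimensional ℚ K] : NumberField K where
  to_charZero := inferInstance
  to_finiteDimensional := by
    have h : (DivisionRing.toRatAlgebra : Algebra ℚ K) = IntermediateField.algebra' K :=
      Subsingleton.elim _ _
    rw [h]
    infer_instance

theorem sk_main_of (H : ∃ C : ℝ, 0 < C ∧ ∀ (K : Type) [Field K] [NumberField K]
    (τ : K →+* ℝ) (g S k0 a s d : ℕ) (I : Finset ℕ), 1 ≤ g →
    1 ≤ a → g ≤ a → S ≤ a → 1 ≤ s → S ≤ s → I ⊆ oddS (a + S) → (∀ i ∈ I, s < i) →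
    ∀ (v : Fin d → ℝ) (z : ℕ → K) (c : ℕ → Fin d → K),
    (∀ i ∈ oddS (a + S), s < i → i ∉ I → zr i = τ (z i) + ∑ x, τ (c i x) * v x) →
    (g + 2) * (k0 + 1 + (s + k0 + I.card * (S + k0 + 1) + d * ((k0 + 1) * (S + 1)))) +
      (k0 + 1) * (S + 1) + 1 ≤ g * (a - k0) →
    ((k0 : ℝ) + 1) * ((S : ℝ) + 1) ^ 2 ≤
      C * Module.finrank ℚ K * (g : ℝ) ^ 2 * (1 + Real.log g) * ((a : ℝ) - s - k0) *
        (1 + Real.log a)) :
    ∃ c > 0, ∃ s0 : ℕ, ∀ (K : IntermediateField ℚ ℝ) [FiniteDimensional ℚ K], ∀ s ≥ s0, ∀ W ≤ s,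
    ∀ V : Submodule K ℝ, Module.Finite K V →
    (s : ℝ) * (Module.finrank ℚ K * (Real.log s * (1 + Real.log ((s : ℝ) / W)))) ≤
      c * (W : ℝ) ^ 2 →
    (Module.finrank K V : ℝ) ^ 2 * (s : ℝ) ^ 2 *
      (Module.finrank ℚ K * (Real.log s * (1 + Real.log ((s : ℝ) / W)))) ≤ c * (W : ℝ) ^ 3 →
    ∀ X : ℝ, 0 ≤ X →
    X ^ 3 * (s : ℝ) ^ 2 * (Module.finrank ℚ K * (Real.log s * (1 + Real.log ((s : ℝ) / W)))) ≤
      (W : ℝ) ^ 4 →
    X * (s : ℝ) * (Module.finrank ℚ K * (Real.log s * (1 + Real.log ((s : ℝ) / W)))) ≤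
      (W : ℝ) ^ 2 →
    (Module.finrank K V : ℝ) * X * (s : ℝ) ^ 2 *
      (Module.finrank ℚ K * (Real.log s * (1 + Real.log ((s : ℝ) / W)))) ≤ (W : ℝ) ^ 3 →
    c * X ≤ (({i : ℕ | Odd i ∧ s < i ∧ i ≤ s + W ∧ ∀ v ∈ V, ∀ q : K, zr i ≠ q + v} : Set ℕ).ncard
      : ℝ) := by
  classical
  obtain ⟨C, hC0, hC⟩ := H
  obtain ⟨c, hc0, s0, hc⟩ := sk_num C hC0
  refine ⟨c, hc0, s0, fun K _ s hs W hW V hfin h1 h2 X hX h3 h4 h5 => ?_⟩
  by_contra hlt
  push Not at hlt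
  -- the exceptional set
  set I : Finset ℕ := (oddS (s + W)).filter
    (fun i => s < i ∧ ¬ ∃ v ∈ V, ∃ q : K, zr i = q + v) with hI
  have hsub : (I : Set ℕ) ⊆
      {i : ℕ | Odd i ∧ s < i ∧ i ≤ s + W ∧ ∀ v ∈ V, ∀ q : K, zr i ≠ q + v} := by
    intro i hi
    rw [Finset.mem_coe, hI, mem_filter] at hi
    obtain ⟨h6, h7, h8⟩ := hi
    simp only [oddS, mem_filter, mem_Icc] at h6
    exact ⟨h6.2, h7, h6.1.2, fun v hv q hq => h8 ⟨v, hv, q, hq⟩⟩
  have hfinite : ({i : ℕ | Odd i ∧ s < i ∧ i ≤ s + W ∧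
      ∀ v ∈ V, ∀ q : K, zr i ≠ q + v} : Set ℕ).Finite :=
    (Set.finite_Iic (s + W)).subset fun i hi => hi.2.2.1
  have hIc : (I.card : ℝ) < c * X := by
    have h6 := Set.ncard_le_ncard hsub hfinite
    rw [Set.ncard_coe_finset] at h6
    exact lt_of_le_of_lt (by exact_mod_cast h6) hlt
  have hδ : 1 ≤ Module.finrank ℚ K := Module.finrank_pos
  obtain ⟨g, S, k0, a, haS, hg, ha, hga, hSa, hs1, hSs, hi, hii⟩ :=
    hc s hs W hW (Module.finrank K V) I.card (Module.finrank ℚ K) hδ X hX h1 h2 h3 h4 h5 hIc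
  obtain ⟨v, z, cc, hz⟩ := FINSK_data K V
  have : NumberField K := FINSK_numberField K
  have hfinal := hC K (algebraMap K ℝ) g S k0 a s (Module.finrank K V) I hg ha hga hSa hs1 hSs
    (by rw [haS]; exact filter_subset _ _)
    (fun i hi => ((mem_filter.1 hi).2).1) v z cc
    (fun i hi hsi hiI => by
      refine hz i ?_
      by_contra hP
      refine hiI (mem_filter.2 ⟨?_, hsi, hP⟩)
      rw [← haS]
      exact hi) hi
  have hfr : @Module.finrank ℚ K _ _ (DivisionRing.toRatAlgebra : Algebra ℚ K).toModule =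
      Module.finrank ℚ K := by
    have h : (DivisionRing.toRatAlgebra : Algebra ℚ K) = IntermediateField.algebra' K :=
      Subsingleton.elim _ _
    rw [h]
  rw [hfr] at hfinal
  linarith

end Pool.Agent.SK
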