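import Pool.Agent.SK.FINSK
import Pool.Agent.SK.CRASK

/-!
# SK: the theorem on short intervals over number fields in real variables
-/

namespace Pool.Agent.SK

open Finset Pool.Agent.ZC Pool.Agent.SI

theorem sk_short_of (H : Core2K) : ∃ c : ℝ, 0 < c ∧ ∃ x0 : ℝ,
    ∀ (K : IntermediateField ℚ ℝ) [FiniteDimensional ℚ K], ∀ x y l : ℝ, x0 ≤ x → 0 < y → y ≤ x →
    l = Module.finrank ℚ K * Real.log x * (1 + Real.log (x / y)) → x * l ≤ c * y ^ 2 →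
    ∀ V : Submodule K ℝ, Module.Finite K V →
    (Module.finrank K V : ℝ) ≤ c * y ^ (5 / 3 : ℝ) / (x ^ 2 * l) ^ (2 / 3 : ℝ) →
    max 1 (c * min (y ^ 2 / (x * l)) (y ^ (4 / 3 : ℝ) / (x ^ 2 * l) ^ (1 / 3 : ℝ))) ≤
      (({i : ℕ | Odd i ∧ x < i ∧ (i : ℝ) ≤ x + y ∧
        ∀ v ∈ V, ∀ q : K, zr i ≠ q + v} : Set ℕ).ncard : ℝ) := by
  obtain ⟨c1, hc1, s0, hmain⟩ := sk_main_of (sk_app2_of H)
  obtain ⟨c, hc, x0, hreal⟩ := sk_real c1 hc1 s0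
  refine ⟨c, hc, x0, fun K _ x y l hx hy0 hyx hl hy V hV hd => ?_⟩
  rw [mul_assoc] at hl
  subst hl
  have hδ : 1 ≤ Module.finrank ℚ K := Module.finrank_pos
  obtain ⟨h1, h2⟩ := hreal x y hx hy0 hyx (Module.finrank ℚ K) hδ hy (Module.finrank K V) hd
    (fun i => Odd i ∧ ∀ v ∈ V, ∀ q : K, zr i ≠ q + v) (by
      intro s hs W hW h1 h2 X hX h3 h4 h5
      have h6 := hmain K s hs W hW V hV h1 h2 X hX h3 h4 h5
      have e : ({i : ℕ | s < i ∧ i ≤ s + W ∧ Odd i ∧ ∀ v ∈ V, ∀ q : K, zr i ≠ q + v} : Set ℕ) =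
          {i : ℕ | Odd i ∧ s < i ∧ i ≤ s + W ∧ ∀ v ∈ V, ∀ q : K, zr i ≠ q + v} := by
        ext i
        simp only [Set.mem_ofPred_eq]
        tauto
      rw [e]
      exact h6)
  have e : ({i : ℕ | x < i ∧ (i : ℝ) ≤ x + y ∧ Odd i ∧ ∀ v ∈ V, ∀ q : K, zr i ≠ q + v} : Set ℕ) =
      {i : ℕ | Odd i ∧ x < i ∧ (i : ℝ) ≤ x + y ∧ ∀ v ∈ V, ∀ q : K, zr i ≠ q + v} := by
    ext i
    simp only [Set.mem_ofPred_eq]
    tauto
  rw [e] at h1 h2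
  exact max_le h1 h2

end Pool.Agent.SK
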