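import Pool.Agent.SK.LASK
import Pool.Agent.SI.PIG

/-!
# SIK: the determinant inequality over a number field with the columns in `J` projected away
-/

namespace Pool.Agent.SK

open Finset Module Pool.Agent.ZC Pool.Agent.SI Pool.Agent.DK

/-- the projection -/
noncomputable def prL {L : Type} [CommRing L] {CL CH : Type} [Fintype CL] (ω : CL → CH → L)
    (V : CL ⊕ CH → L) (y : CH) : L :=
  V (.inr y) - ∑ x, V (.inl x) * ω x y

section pr

variable {L : Type} [CommRing L] {CL CH : Type} [Fintype CL] (ω : CL → CH → L)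

theorem prL_sub_sum {ι : Type} (s : Finset ι) (V : CL ⊕ CH → L) (α : ι → L)
    (F : ι → CL ⊕ CH → L) (y : CH) :
    prL ω (fun x => V x - ∑ i ∈ s, α i * F i x) y = prL ω V y - ∑ i ∈ s, α i * prL ω (F i) y := by
  simp only [prL, mul_sub, sum_sub_distrib, sub_mul, sum_mul, mul_sum]
  have e : ∑ x, ∑ i ∈ s, α i * F i (Sum.inl x) * ω x y =
      ∑ i ∈ s, ∑ x, α i * (F i (Sum.inl x) * ω x y) := by
    rw [sum_comm]
    exact sum_congr rfl fun i _ => sum_congr rfl fun x _ => by ring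
  rw [e]
  ring

theorem prL_mul (c : L) (V : CL ⊕ CH → L) (y : CH) :
    prL ω (fun x => c * V x) y = c * prL ω V y := by
  simp only [prL, mul_sub, mul_sum]
  congr 1
  exact sum_congr rfl fun x _ => by ring

theorem prL_map {L' : Type} [CommRing L'] (σ : L →+* L') (V : CL ⊕ CH → L) (y : CH) :
    σ (prL ω V y) = prL (fun x y => σ (ω x y)) (fun x => σ (V x)) y := by
  simp only [prL, map_sub, map_sum, map_mul]

end pr

theorem prL_bd {CL CH : Type} [Fintype CL] (ω : CL → CH → ℚ) (N Ω : ℝ) (V : CL ⊕ CH → ℂ)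
    (hN : 0 ≤ N) (hV : ∀ x, ‖V x‖ ≤ N) (hω : ∀ x y, |(ω x y : ℝ)| ≤ Ω) (y : CH) :
    ‖prL (fun x y => ((ω x y : ℚ) : ℂ)) V y‖ ≤ N * (1 + Fintype.card CL * Ω) := by
  have hn : ∀ q : ℚ, ‖(q : ℂ)‖ = |(q : ℝ)| := by
    intro q
    rw [← Complex.ofReal_ratCast, Complex.norm_real, Real.norm_eq_abs]
  have h1 : ‖∑ x, V (.inl x) * ((ω x y : ℚ) : ℂ)‖ ≤ Fintype.card CL * (N * Ω) := by
    refine (norm_sum_le _ _).trans ?_
    rw [← nsmul_eq_mul, ← card_univ, ← sum_const]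
    refine sum_le_sum fun x _ => ?_
    rw [norm_mul, hn]
    exact mul_le_mul (hV _) (hω x y) (abs_nonneg _) hN
  calc ‖prL (fun x y => ((ω x y : ℚ) : ℂ)) V y‖
      ≤ ‖V (.inr y)‖ + ‖∑ x, V (.inl x) * ((ω x y : ℚ) : ℂ)‖ := norm_sub_le _ _
    _ ≤ N + Fintype.card CL * (N * Ω) := add_le_add (hV _) h1
    _ = _ := by ring

theorem det_ineq_projK {K : Type} [Field K] [NumberField K] (τ : K →+* ℝ) {Cc Fi CL CH : Type}
    [Fintype Cc] [Fintype Fi] [Fintype CL] [Fintype CH] [DecidableEq CL]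
    (v : Cc ⊕ Fi → CL ⊕ CH → K)
    (hmod : ∀ (c : Cc → K) (f : Fi → K),
      (∀ x, ∑ i, c i * v (.inl i) x + ∑ j, f j * v (.inr j) x = 0) → ∀ j, f j = 0)
    (ω : CL → CH → ℚ)
    (hK2 : ∀ x0, ∃ β : Cc → K,
      (∀ x, ∑ i, β i * v (.inl i) (.inl x) = if x = x0 then 1 else 0) ∧
      ∀ y, ∑ i, β i * v (.inl i) (.inr y) = (ω x0 y : K))
    (D1 D2 : ℕ) (hD1 : 0 < D1) (hD2 : 0 < D2)
    (hint1 : ∀ r x, IsIntegral ℤ ((D1 : K) * v r x))
    (hint2 : ∀ x y, ∃ w : ℤ, (D2 : ℚ) * ω x y = w)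
    (N Ω t : ℝ) (hN : 0 ≤ N) (hΩ : 0 ≤ Ω) (ht0 : 0 ≤ t) (ht1 : t < 1)
    (hω : ∀ x y, |(ω x y : ℝ)| ≤ Ω)
    (γ : Fi → ℕ → ℝ) (u : ℕ → CL ⊕ CH → ℝ)
    (h1 : ∀ (ρ : K →+* ℂ) i x, ‖ρ (v (.inl i) x)‖ ≤ N)
    (hc : ∀ (ρ : K →+* ℂ) j, ∃ α : Cc → ℂ, ∀ x,
      ‖ρ (v (.inr j) x) - ∑ i, α i * ρ (v (.inl i) x)‖ ≤ N)
    (h2 : ∀ j k x, |γ j k * u k x| ≤ N * t ^ (2 * k))
    (h3 : ∀ j, ∃ α : Cc → ℝ, ∀ x, HasSum (fun k => γ j k * u k x)
      (τ (v (.inr j) x) - ∑ i, α i * τ (v (.inl i) x))) :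
    ∃ R : ℕ, Fintype.card Fi ≤ R ∧ R ≤ Fintype.card CH ∧
      1 ≤ (((D1 * D2 : ℕ) : ℝ) ^ R * ((R.factorial : ℝ) *
        (N * (1 + Fintype.card CL * Ω)) ^ R)) ^ finrank ℚ K *
        (t ^ (Fintype.card Fi * (Fintype.card Fi - 1) / 2) *
          (1 / (1 - t)) ^ Fintype.card Fi) := by
  classical
  choose β0 hβ1 hβ2 using hK2
  have hmapc : ∀ (ρ : K →+* ℂ), (fun x y => ρ ((ω x y : ℚ) : K)) =
      fun (x : CL) (y : CH) => ((ω x y : ℚ) : ℂ) := by
    intro ρ
    funext x y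
    exact map_ratCast ρ _
  have hmapr : (fun x y => τ ((ω x y : ℚ) : K)) =
      fun (x : CL) (y : CH) => ((ω x y : ℚ) : ℝ) := by
    funext x y
    exact map_ratCast τ _
  obtain ⟨R, hR1, -, hR2, hR3⟩ := det_ineqK τ (Cc := Cc) (Fi := Fi) (Col := CH)
    (fun r y => prL (fun x y => ((ω x y : ℚ) : K)) (v r) y)
    (by
      intro c f hcf j
      set V : CL ⊕ CH → K := fun x => ∑ i, c i * v (.inl i) x + ∑ j, f j * v (.inr j) x with hV
      have hVr : ∀ y, V (.inr y) = ∑ x, V (.inl x) * (ω x y : K) := by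
        intro y
        have h := hcf y
        simp only [prL] at h
        have e1 : ∑ x, V (.inl x) * (ω x y : K) = ∑ i, c i *
            (∑ x, v (.inl i) (.inl x) * (ω x y : K)) +
            ∑ j, f j * (∑ x, v (.inr j) (.inl x) * (ω x y : K)) := by
          simp only [hV, add_mul, sum_add_distrib, sum_mul, mul_sum]
          congr 1
          · rw [sum_comm]
            exact sum_congr rfl fun i _ => sum_congr rfl fun x _ => by ring
          · rw [sum_comm]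
            exact sum_congr rfl fun i _ => sum_congr rfl fun x _ => by ring
        rw [e1]
        simp only [hV]
        simp only [mul_sub, sum_sub_distrib] at h
        linear_combination h
      refine hmod (fun i => c i - ∑ x0, V (.inl x0) * β0 x0 i) f ?_ j
      have e3 : ∀ x, ∑ i, (∑ x0, V (.inl x0) * β0 x0 i) * v (.inl i) x =
          ∑ x0, V (.inl x0) * ∑ i, β0 x0 i * v (.inl i) x := by
        intro x
        simp only [sum_mul, mul_sum]
        rw [sum_comm]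
        exact sum_congr rfl fun i _ => sum_congr rfl fun x _ => by ring
      intro x
      simp only [sub_mul, sum_sub_distrib]
      rw [e3]
      have e4 : ∑ i, c i * v (.inl i) x + ∑ j, f j * v (.inr j) x = V x := rfl
      rcases x with x | y
      · simp only [hβ1]
        have e5 : ∑ x0, V (.inl x0) * (if x = x0 then (1 : K) else 0) = V (.inl x) := by
          simp
        rw [e5]
        linear_combination e4
      · simp only [hβ2]
        rw [← hVr]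
        linear_combination e4)
    (D1 * D2) (by positivity)
    (by
      intro r y
      have e1 : ((D1 * D2 : ℕ) : K) * prL (fun x y => ((ω x y : ℚ) : K)) (v r) y =
          (D2 : K) * ((D1 : K) * v r (.inr y)) -
            ∑ x, ((D1 : K) * v r (.inl x)) * ((D2 : K) * ((ω x y : ℚ) : K)) := by
        simp only [prL, mul_sub, mul_sum]
        push_cast
        congr 1
        · ring
        · exact sum_congr rfl fun x _ => by ring
      rw [e1]
      refine IsIntegral.sub (IsIntegral.mul (isIntegral_natCast _) (hint1 _ _))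
        (IsIntegral.sum _ fun x _ => IsIntegral.mul (hint1 _ _) ?_)
      obtain ⟨w, hw⟩ := hint2 x y
      have e2 : (D2 : K) * ((ω x y : ℚ) : K) = (w : K) := by
        have := congrArg (fun q : ℚ => (q : K)) hw
        push_cast at this
        exact this
      rw [e2]
      exact isIntegral_intCast _)
    (N * (1 + Fintype.card CL * Ω)) t (by positivity) ht0 ht1 γ
    (fun k => prL (fun x y => ((ω x y : ℚ) : ℝ)) (u k))
    (by
      intro ρ i y
      rw [prL_map, hmapc]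
      exact prL_bd ω N Ω _ hN (fun x => h1 ρ i x) hω y)
    (by
      intro ρ j
      obtain ⟨α, hα⟩ := hc ρ j
      refine ⟨α, fun y => ?_⟩
      have e : ρ (prL (fun x y => ((ω x y : ℚ) : K)) (v (.inr j)) y) -
          ∑ i, α i * ρ (prL (fun x y => ((ω x y : ℚ) : K)) (v (.inl i)) y) =
          prL (fun x y => ((ω x y : ℚ) : ℂ))
            (fun x => ρ (v (.inr j) x) - ∑ i, α i * ρ (v (.inl i) x)) y := by
        rw [prL_sub_sum, prL_map, hmapc]
        congr 1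
        refine sum_congr rfl fun i _ => ?_
        rw [prL_map, hmapc]
      rw [e]
      exact prL_bd ω N Ω _ hN hα hω y)
    (by
      intro j k y
      rw [← prL_mul]
      have := LAP_bd (γ j k * u k (.inr y)) (N * t ^ (2 * k)) Ω (fun x => γ j k * u k (.inl x))
        (fun x => (ω x y : ℝ)) (by positivity) (h2 _ _ _) (fun x => h2 _ _ _) (fun x => hω _ _)
      refine this.trans (le_of_eq ?_)
      ring)
    (by
      intro j
      obtain ⟨α, h⟩ := h3 j
      refine ⟨α, fun y => ?_⟩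
      have h5 : HasSum (fun k => prL (fun x y => ((ω x y : ℚ) : ℝ)) (fun x => γ j k * u k x) y)
          (prL (fun x y => ((ω x y : ℚ) : ℝ))
            (fun x => τ (v (.inr j) x) - ∑ i, α i * τ (v (.inl i) x)) y) := by
        simp only [prL]
        exact (h (.inr y)).sub (hasSum_sum fun x _ => (h (.inl x)).mul_right _)
      convert h5 using 1
      · funext k
        rw [prL_mul]
      · rw [prL_sub_sum, prL_map, hmapr]
        congr 1
        refine sum_congr rfl fun i _ => ?_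
        rw [prL_map, hmapr])
  exact ⟨R, hR1, hR2, hR3⟩

section castP

variable (K : Type) [Field K] [CharZero K]

theorem pc_hl (p l : ℕ) : PowerSeries.map (Rat.castHom K) (hl ℚ p l) = hl K p l := by
  simp [hl]

theorem pc_yl (p l : ℕ) : PowerSeries.map (Rat.castHom K) (yl ℚ p l) = yl K p l := by
  simp [yl]

theorem pc_ev (p l : ℕ) (f : Polynomial ℚ) :
    PowerSeries.map (Rat.castHom K) (ev ℚ p l f) = ev K p l (f.map (Rat.castHom K)) := by
  rw [ev, ev, Polynomial.aeval_def, Polynomial.aeval_def, Polynomial.hom_eval₂, pc_yl,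
    Polynomial.eval₂_map]
  congr 1
  exact RingHom.ext_rat _ _

end castP

theorem det_ineq_piK {K : Type} [Field K] [NumberField K] (τ : K →+* ℝ) {Cc Fi : Type}
    [Fintype Cc] [Fintype Fi] (p a B M d : ℕ) (J : Finset ℕ)
    (hp : 1 ≤ p) (hJ : ∀ e ∈ J, e < a) (hM : 0 < M) (hd0 : 0 < d)
    (hd : ∀ q : ℕ, 1 ≤ q → q ≤ M → q ∣ d)
    (hB : 2 * p = B * M) (v : Cc ⊕ Fi → ℕ → ℕ → K)
    (hmod : ∀ (b : Cc → K) (f : Fi → K),
      (∀ l < p, ∀ m < a, ∑ i, b i * v (.inl i) l m + ∑ j, f j * v (.inr j) l m = 0) →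
        ∀ j, f j = 0)
    (hV : ∀ e ∈ J, ∀ f ∈ Polynomial.degreeLT K p, ∃ β : Cc → K, ∀ l < p, ∀ m < a,
      ∑ i, β i * v (.inl i) l m =
        PowerSeries.coeff m (PowerSeries.X ^ e * (hl K p l ^ (e % 2) * ev K p l f)))
    (D : ℕ) (hD : 0 < D)
    (hint : ∀ r, ∀ l < p, ∀ m < a, IsIntegral ℤ ((D : K) * v r l m))
    (N t : ℝ) (hN : 0 ≤ N) (ht0 : 0 ≤ t) (ht1 : t < 1) (γ : Fi → ℕ → ℝ) (u : ℕ → ℕ → ℕ → ℝ)
    (h1 : ∀ (ρ : K →+* ℂ) i, ∀ l < p, ∀ m < a, ‖ρ (v (.inl i) l m)‖ ≤ N)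
    (hc : ∀ (ρ : K →+* ℂ) j, ∃ α : Cc → ℂ, ∀ l < p, ∀ m < a,
      ‖ρ (v (.inr j) l m) - ∑ i, α i * ρ (v (.inl i) l m)‖ ≤ N)
    (h2 : ∀ j k, ∀ l < p, ∀ m < a, |γ j k * u k l m| ≤ N * t ^ (2 * k))
    (h3 : ∀ j, ∃ α : Cc → ℝ, ∀ l < p, ∀ m < a, HasSum (fun k => γ j k * u k l m)
      (τ (v (.inr j) l m) - ∑ i, α i * τ (v (.inl i) l m))) :
    ∃ R T : ℕ, Fintype.card Fi ≤ R ∧ R ≤ p * (a - J.card) ∧ 1 ≤ T ∧ T ≤ B ^ (B * M) ∧
      1 ≤ (((D * (T * d ^ a) : ℕ) : ℝ) ^ R * ((R.factorial : ℝ) *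
        (N * (1 + ((p * J.card : ℕ) : ℝ) * (((a + 1).factorial * 2 ^ (a + 1) : ℕ) *
          (2 ^ a * (2 * p + 1) ^ 2 * 4 ^ p)))) ^ R)) ^ finrank ℚ K *
        (t ^ (Fintype.card Fi * (Fintype.card Fi - 1) / 2) *
          (1 / (1 - t)) ^ Fintype.card Fi) := by
  classical
  obtain ⟨T, ω, hT0, hT1, hω1, hω2, hω3⟩ := pi_gen J a hJ B M d p hM hd hB hp
  obtain ⟨R, hR1, hR2, hR3⟩ := det_ineq_projK τ (CL := Fin p × {e // e ∈ J})
    (CH := Fin p × {m // m ∈ range a \ J})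
    (fun r x => match x with
      | .inl x => v r x.1 x.2.1
      | .inr y => v r y.1 y.2.1)
    (by
      intro b f hbf
      refine hmod b f fun l hl m hm => ?_
      by_cases h : m ∈ J
      · exact hbf (.inl (⟨l, hl⟩, ⟨m, h⟩))
      · exact hbf (.inr (⟨l, hl⟩, ⟨m, mem_sdiff.2 ⟨mem_range.2 hm, h⟩⟩)))
    (fun x y => ω x.1 x.2.1 y.1 y.2.1)
    (by
      rintro ⟨l0, k0⟩
      obtain ⟨Q, hQ, hQe⟩ := hω1 l0 l0.2 k0.1 k0.2
      choose! β hβ using hV
      have hQm : ∀ e, (Q e).map (Rat.castHom K) ∈ Polynomial.degreeLT K p := by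
        intro e
        rw [Polynomial.mem_degreeLT]
        exact lt_of_le_of_lt Polynomial.degree_map_le (Polynomial.mem_degreeLT.1 (hQ e))
      have e1 : ∀ l < p, ∀ m < a,
          ∑ i, (∑ e ∈ J, β e ((Q e).map (Rat.castHom K)) i) * v (Sum.inl i) l m =
            ((PowerSeries.coeff m
              (∑ e ∈ J, PowerSeries.X ^ e * (hl ℚ p l ^ (e % 2) * ev ℚ p l (Q e))) : ℚ) : K) := by
        intro l hl' m hm
        simp only [sum_mul]
        rw [sum_comm, map_sum, Rat.cast_sum]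
        refine sum_congr rfl fun e he => ?_
        rw [hβ e he _ (hQm e) l hl' m hm]
        have e2 : PowerSeries.map (Rat.castHom K)
            (PowerSeries.X ^ e * (hl ℚ p l ^ (e % 2) * ev ℚ p l (Q e))) =
            PowerSeries.X ^ e * (hl K p l ^ (e % 2) * ev K p l ((Q e).map (Rat.castHom K))) := by
          rw [map_mul, map_mul, map_pow, map_pow, pc_hl, pc_ev, PowerSeries.map_X]
        rw [← e2, PowerSeries.coeff_map]
        rfl
      refine ⟨fun i => ∑ e ∈ J, β e ((Q e).map (Rat.castHom K)) i, ?_, ?_⟩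
      · rintro ⟨l, k⟩
        simp only
        rw [e1 l l.2 k.1 (hJ _ k.2), hQe l l.2 k.1 (hJ _ k.2), if_pos k.2]
        simp only [Prod.mk.injEq, Fin.ext_iff, Subtype.ext_iff]
        split_ifs <;> simp
      · rintro ⟨l, ⟨m, hm⟩⟩
        simp only
        rw [mem_sdiff, mem_range] at hm
        rw [e1 l l.2 m hm.1, hQe l l.2 m hm.1, if_neg hm.2])
    D (T * d ^ a) hD (by positivity)
    (by
      rintro r (⟨l, k⟩ | ⟨l, ⟨m, hm⟩⟩)
      · exact hint r l l.2 k (hJ _ k.2)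
      · exact hint r l l.2 m (mem_range.1 (mem_sdiff.1 hm).1))
    (by
      rintro ⟨l, k⟩ ⟨l', ⟨m, hm⟩⟩
      rw [mem_sdiff, mem_range] at hm
      exact hω2 l l.2 k.1 k.2 l' l'.2 m hm.1 hm.2)
    N (((a + 1).factorial * 2 ^ (a + 1) : ℕ) * (2 ^ a * (2 * p + 1) ^ 2 * 4 ^ p)) t hN
    (by positivity) ht0 ht1
    (by
      rintro ⟨l, k⟩ ⟨l', ⟨m, hm⟩⟩
      rw [mem_sdiff, mem_range] at hm
      exact hω3 l l.2 k.1 k.2 l' l'.2 m hm.1 hm.2)
    γ
    (fun k x => match x with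
      | .inl x => u k x.1 x.2.1
      | .inr y => u k y.1 y.2.1)
    (by
      rintro ρ i (⟨l, k⟩ | ⟨l, ⟨m, hm⟩⟩)
      · exact h1 ρ i l l.2 k (hJ _ k.2)
      · exact h1 ρ i l l.2 m (mem_range.1 (mem_sdiff.1 hm).1))
    (by
      intro ρ j
      obtain ⟨α, hα⟩ := hc ρ j
      refine ⟨α, ?_⟩
      rintro (⟨l, k⟩ | ⟨l, ⟨m, hm⟩⟩)
      · exact hα l l.2 k (hJ _ k.2)
      · exact hα l l.2 m (mem_range.1 (mem_sdiff.1 hm).1))
    (by
      rintro j κ (⟨l, k⟩ | ⟨l, ⟨m, hm⟩⟩)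
      · exact h2 j κ l l.2 k (hJ _ k.2)
      · exact h2 j κ l l.2 m (mem_range.1 (mem_sdiff.1 hm).1))
    (by
      intro j
      obtain ⟨α, hα⟩ := h3 j
      refine ⟨α, ?_⟩
      rintro (⟨l, k⟩ | ⟨l, ⟨m, hm⟩⟩)
      · exact hα l l.2 k (hJ _ k.2)
      · exact hα l l.2 m (mem_range.1 (mem_sdiff.1 hm).1))
  have hcH : (range a \ J).card = a - J.card := by
    rw [card_sdiff_of_subset (fun e he => mem_range.2 (hJ e he)), card_range]
  refine ⟨R, T, hR1, ?_, hT0, hT1, ?_⟩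
  · simpa only [Fintype.card_prod, Fintype.card_fin, Fintype.card_coe, hcH] using hR2
  · simpa only [Fintype.card_prod, Fintype.card_fin, Fintype.card_coe] using hR3

end Pool.Agent.SK
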