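import Pool.Agent.SI.BDSA

/-!
# SK: bound for the zeta part of the `F` rows (one zeta value)

Used for the conjugates of the `F` rows: `σ F(z) - F(zr) = ∑ (σ z_i - zr i) (row below)`.
`|coeff (ev (Am))| ≤ (4N+1) e^M (28 (g+2) A)^(2q-1)`, `|coeff (ev (Cn))|` as in `SI/BDSA`,
`A = a+S+1`, `N = (g+2) A M`, `q = (g+1) A M`.
-/

namespace Pool.Agent.SK

open Finset Pool.Agent.ZC Pool.Agent.SI

private theorem bdsk_Cn (p l M i G A : ℕ) (hl : l < p) (hM : 0 < M) (hG : 1 ≤ G) (hA : 1 ≤ A)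
    (hp : p ≤ G * (A * M)) (hi : i < G * (A * M)) (r : ℕ) :
    |PowerSeries.coeff r (ev ℝ p l (Cn ℝ M i))| ≤
      (13 * (G : ℝ) * A) ^ (2 * i) * Real.exp M := by
  set n := 4 * (G * (A * M)) with hn
  have hAM : 1 ≤ G * (A * M) := Nat.mul_pos hG (Nat.mul_pos hA hM)
  have h1 := bd_Cp p l n i hl (by omega) (by omega) r
  rw [Cn, ev_C_mul, PowerSeries.coeff_C_mul, abs_mul]
  have hb : (0 : ℝ) < ((4 ^ i * bf M (2 * i) : ℕ) : ℝ) := by
    exact_mod_cast Nat.mul_pos (by positivity) (bf_pos _ _)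
  rw [abs_of_pos (inv_pos.2 hb), inv_mul_le_iff₀ hb]
  refine h1.trans ?_
  have h2 := le_bf hM (2 * i)
  have hMR : (0 : ℝ) < M := by exact_mod_cast hM
  have hGR : (1 : ℝ) ≤ G := by exact_mod_cast hG
  have hAR : (1 : ℝ) ≤ A := by exact_mod_cast hA
  have hnR : (n : ℝ) = 4 * (G * (A * M)) := by rw [hn]; push_cast; ring
  have hn1 : (1 : ℝ) ≤ G * (A * M) := by exact_mod_cast hAM
  have h3 : (2 * (M : ℝ)) ^ (2 * i) * Real.exp (-(2 * i + M)) ≤
      ((4 ^ i * bf M (2 * i) : ℕ) : ℝ) := by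
    push_cast at h2 ⊢
    rw [mul_pow, pow_mul, mul_assoc]
    have : ((2 : ℝ) ^ 2) ^ i = 4 ^ i := by norm_num
    rw [this]
    exact mul_le_mul_of_nonneg_left h2 (by positivity)
  have h4 : (2 * (n : ℝ) + 1) ^ (2 * i) ≤
      ((2 * (M : ℝ)) ^ (2 * i) * Real.exp (-(2 * i + M))) *
        ((13 * (G : ℝ) * A) ^ (2 * i) * Real.exp M) := by
    have e1 : Real.exp (-(2 * (i : ℝ) + M)) * Real.exp M = (Real.exp (-1)) ^ (2 * i) := by
      rw [← Real.exp_add, ← Real.exp_nat_mul]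
      congr 1; push_cast; ring
    have e2 : (2 * (M : ℝ)) ^ (2 * i) * Real.exp (-(2 * i + M)) *
        ((13 * (G : ℝ) * A) ^ (2 * i) * Real.exp M) =
        (2 * (M : ℝ) * Real.exp (-1) * (13 * G * A)) ^ (2 * i) := by
      rw [mul_pow (2 * (M : ℝ) * Real.exp (-1)), mul_pow (2 * (M : ℝ)) (Real.exp (-1)), ← e1]
      ring
    rw [e2]
    apply pow_le_pow_left₀ (by positivity)
    have e4 : (1 : ℝ) / 2.7182818286 ≤ Real.exp (-1) := by
      rw [Real.exp_neg, one_div]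
      exact inv_anti₀ (Real.exp_pos _) Real.exp_one_lt_d9.le
    have e5 : 2 * (n : ℝ) + 1 ≤ 2 * M * (1 / 2.7182818286) * (13 * G * A) := by
      rw [hnR]
      have : 2 * (M : ℝ) * (1 / 2.7182818286) * (13 * G * A) =
          (26 / 2.7182818286) * (G * (A * M)) := by ring
      rw [this]
      have h9 : (9 : ℝ) ≤ 26 / 2.7182818286 := by norm_num
      nlinarith
    refine e5.trans ?_
    apply mul_le_mul_of_nonneg_right _ (by positivity)
    exact mul_le_mul_of_nonneg_left e4 (by positivity)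
  refine h4.trans ?_
  exact mul_le_mul_of_nonneg_right h3 (by positivity)

private theorem bdsk_hl (p l s : ℕ) (hlp : l < p) (hs : s ≤ 1) (F : PowerSeries ℝ) (B : ℝ)
    (hB : ∀ r, |PowerSeries.coeff r F| ≤ B) (r : ℕ) :
    |PowerSeries.coeff r (hl ℝ p l ^ s * F)| ≤ (2 * (p : ℝ) + 1) * B := by
  have hB0 : 0 ≤ B := (abs_nonneg _).trans (hB 0)
  have h1 : (l : ℝ) + 1 ≤ p := by exact_mod_cast hlp
  have h0 : (0 : ℝ) ≤ l := by positivity
  have hp0 : (0 : ℝ) ≤ p := by positivity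
  interval_cases s
  · rw [pow_zero, one_mul]
    refine (hB r).trans ?_
    nlinarith
  · rw [pow_one, hl, add_mul, map_add, PowerSeries.coeff_C_mul, mul_assoc,
      PowerSeries.coeff_C_mul]
    have hX : |PowerSeries.coeff r (PowerSeries.X * F)| ≤ B := by
      rcases r with _ | r
      · rw [PowerSeries.coeff_zero_X_mul]; simpa using hB0
      · rw [PowerSeries.coeff_succ_X_mul]; exact hB r
    refine (abs_add_le _ _).trans ?_
    rw [abs_mul, abs_mul, abs_of_nonneg (by linarith : (0 : ℝ) ≤ 2 * (p : ℝ) - 1 - 2 * l),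
      abs_of_nonneg (by norm_num : (0 : ℝ) ≤ 2)]
    have h5 := hB r
    have h6 : (2 * (p : ℝ) - 1 - 2 * l) * |PowerSeries.coeff r F| ≤ (2 * (p : ℝ) - 1) * B :=
      mul_le_mul (by linarith) h5 (abs_nonneg _) (by linarith)
    linarith

private theorem bdsk_inv {M : ℕ} (hM : 0 < M) (z : ℕ) :
    ((bf M z : ℕ) : ℝ)⁻¹ ≤ (Real.exp 1 / M) ^ z * Real.exp M := by
  have hMR : (0 : ℝ) < M := by exact_mod_cast hM
  have hb : (0 : ℝ) < ((bf M z : ℕ) : ℝ) := by exact_mod_cast bf_pos _ _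
  have h := le_bf hM z
  rw [inv_le_iff_one_le_mul₀ hb]
  have e : (Real.exp 1 / M) ^ z * Real.exp M * ((M : ℝ) ^ z * Real.exp (-(z + M : ℕ))) = 1 := by
    have e1 : Real.exp (-((z + M : ℕ) : ℝ)) * Real.exp M * (Real.exp 1) ^ z = 1 := by
      rw [← Real.exp_add, ← Real.exp_nat_mul, ← Real.exp_add]
      have e0 : -((z + M : ℕ) : ℝ) + M + (z : ℝ) * 1 = 0 := by push_cast; ring
      rw [e0, Real.exp_zero]
    rw [div_pow]
    have hMz : (M : ℝ) ^ z ≠ 0 := by positivity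
    calc (Real.exp 1) ^ z / (M : ℝ) ^ z * Real.exp M * ((M : ℝ) ^ z * Real.exp (-(z + M : ℕ)))
        = Real.exp (-((z + M : ℕ) : ℝ)) * Real.exp M * (Real.exp 1) ^ z := by
          field_simp
      _ = 1 := e1
  calc (1 : ℝ) = (Real.exp 1 / M) ^ z * Real.exp M *
        ((M : ℝ) ^ z * Real.exp (-(z + M : ℕ))) := e.symm
    _ ≤ (Real.exp 1 / M) ^ z * Real.exp M * ((bf M z : ℕ) : ℝ) :=
        mul_le_mul_of_nonneg_left h (by positivity)

private theorem bdsk_evAp (p l q : ℕ) : ev ℝ p l (Ap ℝ q) =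
    ∏ μ ∈ range q, ((PowerSeries.C ((2 * (p : ℝ) - 1 - 2 * (l : ℝ)) - 2 * (μ : ℝ)) +
        PowerSeries.C (2 : ℝ) * PowerSeries.X) *
      (PowerSeries.C ((2 * (p : ℝ) - 1 - 2 * (l : ℝ)) + 2 * (μ : ℝ)) +
        PowerSeries.C (2 : ℝ) * PowerSeries.X)) := by
  rw [ev, Ap, map_prod]
  refine prod_congr rfl fun k _ => ?_
  rw [map_sub, Polynomial.aeval_X, Polynomial.aeval_C]
  have h : (algebraMap ℝ (PowerSeries ℝ)) ((2 * (k : ℝ)) ^ 2) =
      (PowerSeries.C (2 * (k : ℝ))) ^ 2 := by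
    rw [← map_pow]; rfl
  rw [h, yl]
  simp only [map_sub, map_add]
  ring

private theorem bdsk_Ap (p l q N : ℕ) (hl : l < p) (hp : p ≤ N) (hq : q ≤ N) (r : ℕ) :
    |PowerSeries.coeff r (ev ℝ p l (Ap ℝ q))| ≤ (4 * (N : ℝ) + 1) ^ (2 * q) := by
  rw [bdsk_evAp]
  refine ((BDom.prod (range q) fun k _ => (BDom.lin _).mul (BDom.lin _)).coeff_le r).trans ?_
  rw [Polynomial.eval_prod, mul_comm 2 q, pow_mul']
  have h1 : (l : ℝ) + 1 ≤ p := by exact_mod_cast hl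
  have h0 : (0 : ℝ) ≤ l := by positivity
  have h2 : (p : ℝ) ≤ N := by exact_mod_cast hp
  have h3 : ∏ k ∈ range q, ((4 * (N : ℝ) + 1) ^ 2) = ((4 * (N : ℝ) + 1) ^ 2) ^ q := by
    simp
  rw [← h3]
  apply prod_le_prod
  · intro k _
    simp only [Polynomial.eval_mul, Polynomial.eval_add, Polynomial.eval_C, Polynomial.eval_X,
      mul_one]
    positivity
  · intro k hk
    have hk1 : (k : ℝ) + 1 ≤ N := by
      have : k + 1 ≤ N := by have := mem_range.1 hk; omega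
      exact_mod_cast this
    have hk0 : (0 : ℝ) ≤ k := by positivity
    simp only [Polynomial.eval_mul, Polynomial.eval_add, Polynomial.eval_C, Polynomial.eval_X,
      mul_one]
    rw [abs_of_nonneg (a := 2 * (p : ℝ) - 1 - 2 * (l : ℝ) + 2 * (k : ℝ)) (by linarith)]
    have e1 : |2 * (p : ℝ) - 1 - 2 * (l : ℝ) - 2 * (k : ℝ)| + 2 ≤ 4 * (N : ℝ) + 1 := by
      rcases abs_cases (2 * (p : ℝ) - 1 - 2 * (l : ℝ) - 2 * (k : ℝ)) with ⟨h4, _⟩ | ⟨h4, _⟩
      · rw [h4]; linarith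
      · rw [h4]; linarith
    have e2 : 2 * (p : ℝ) - 1 - 2 * (l : ℝ) + 2 * (k : ℝ) + 2 ≤ 4 * (N : ℝ) + 1 := by linarith
    rw [sq]
    exact mul_le_mul e1 e2 (by linarith) (by positivity)

private theorem bdsk_Am (p l M q G A : ℕ) (hl : l < p) (hM : 0 < M) (hG : 1 ≤ G) (hA : 1 ≤ A)
    (hp : p ≤ G * (A * M)) (hq : q ≤ G * (A * M)) (hq1 : 1 ≤ q) (r : ℕ) :
    |PowerSeries.coeff r (ev ℝ p l (Am ℝ M q))| ≤
      (4 * ((G * (A * M) : ℕ) : ℝ) + 1) * ((28 * (G : ℝ) * A) ^ (2 * q - 1) * Real.exp M) := by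
  set N := G * (A * M) with hN
  have hN1 : 1 ≤ N := Nat.mul_pos hG (Nat.mul_pos hA hM)
  have h1 := bdsk_Ap p l q N hl hp hq r
  have hMR : (0 : ℝ) < M := by exact_mod_cast hM
  have hNR : (N : ℝ) = G * (A * M) := by rw [hN]; push_cast; ring
  have hN1R : (1 : ℝ) ≤ N := by exact_mod_cast hN1
  rw [Am, ev_C_mul, PowerSeries.coeff_C_mul, abs_mul,
    abs_of_nonneg (by positivity : (0 : ℝ) ≤ (2 : ℝ) ^ (2 * q - 1) *
      ((bf M (2 * q - 1) : ℕ) : ℝ)⁻¹)]
  have h2 := bdsk_inv hM (2 * q - 1)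
  obtain ⟨z, hz⟩ : ∃ z, 2 * q = z + 1 := ⟨2 * q - 1, by omega⟩
  have hz' : 2 * q - 1 = z := by omega
  rw [hz] at h1
  rw [hz'] at h2 ⊢
  calc (2 : ℝ) ^ z * ((bf M z : ℕ) : ℝ)⁻¹ * |PowerSeries.coeff r (ev ℝ p l (Ap ℝ q))|
      ≤ (2 : ℝ) ^ z * ((Real.exp 1 / M) ^ z * Real.exp M) * (4 * (N : ℝ) + 1) ^ (z + 1) := by
        apply mul_le_mul _ h1 (abs_nonneg _) (by positivity)
        exact mul_le_mul_of_nonneg_left h2 (by positivity)
    _ = (4 * (N : ℝ) + 1) * ((2 * (Real.exp 1 / M) * (4 * (N : ℝ) + 1)) ^ z * Real.exp M) := by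
        rw [mul_pow, mul_pow, pow_succ]
        ring
    _ ≤ (4 * (N : ℝ) + 1) * ((28 * (G : ℝ) * A) ^ z * Real.exp M) := by
        apply mul_le_mul_of_nonneg_left _ (by positivity)
        apply mul_le_mul_of_nonneg_right _ (Real.exp_pos _).le
        apply pow_le_pow_left₀ (by positivity)
        have e1 : 2 * (Real.exp 1 / M) * (4 * (N : ℝ) + 1) ≤ 2 * (Real.exp 1 / M) * (5 * (N : ℝ)) := by
          apply mul_le_mul_of_nonneg_left _ (by positivity)
          linarith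
        have e2 : 2 * (Real.exp 1 / M) * (5 * (N : ℝ)) = 10 * Real.exp 1 * (G * A) := by
          rw [hNR]
          field_simp
          ring
        rw [e2] at e1
        refine e1.trans ?_
        have e3 : Real.exp 1 ≤ 2.8 := by
          have := Real.exp_one_lt_d9
          linarith
        have e4 : (0 : ℝ) ≤ (G : ℝ) * A := by positivity
        nlinarith

private theorem bdsk_mul (F G : PowerSeries ℝ) (B1 B2 : ℝ)
    (h1 : ∀ r, |PowerSeries.coeff r F| ≤ B1) (h2 : ∀ r, |PowerSeries.coeff r G| ≤ B2) (r : ℕ) :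
    |PowerSeries.coeff r (F * G)| ≤ ((r : ℝ) + 1) * (B1 * B2) := by
  have hB1 : 0 ≤ B1 := (abs_nonneg _).trans (h1 0)
  rw [PowerSeries.coeff_mul]
  refine (abs_sum_le_sum_abs _ _).trans ?_
  have h3 : ∑ x ∈ antidiagonal r, |PowerSeries.coeff x.1 F * PowerSeries.coeff x.2 G| ≤
      ∑ x ∈ antidiagonal r, B1 * B2 := by
    apply sum_le_sum
    intro x _
    rw [abs_mul]
    exact mul_le_mul (h1 _) (h2 _) (abs_nonneg _) hB1
  refine h3.trans (le_of_eq ?_)
  rw [sum_const, Finset.Nat.card_antidiagonal, nsmul_eq_mul]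
  push_cast
  ring

theorem sk_bd_z (g S a : ℕ) (hg : 1 ≤ g) (ha : 1 ≤ a) :
    ∃ M0 : ℕ, ∀ M ≥ M0, ∀ l < g * ((a + S + 1) * M), ∀ j < (a + S + 1) * M, ∀ k, ∀ r ≤ S,
      ∀ i ∈ oddS (a + S), ∀ m < a,
      |PowerSeries.coeff m (PowerSeries.X ^ k *
        hs ℝ r (hl ℝ (g * ((a + S + 1) * M)) l ^ ((k + r) % 2) *
          ev ℝ (g * ((a + S + 1) * M)) l (Am ℝ M ((g + 1) * ((a + S + 1) * M)) * Cn ℝ M j) *
          zp ℝ (a + S) (Pi.single i 1)))| ≤
        (100 * ((g : ℝ) + 2) * (a + S + 1)) ^ (4 * ((g + 2) * ((a + S + 1) * M))) := by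
  classical
  refine ⟨(a + S + 1) * 2 ^ (2 * (a + S) + 1) + 1, fun M hM l hl' j hj k r hr i hi m hm => ?_⟩
  set c0 : ℕ := (a + S + 1) * 2 ^ (2 * (a + S) + 1) with hc0
  have hM0 : 0 < M := by omega
  have hMR : (0 : ℝ) < M := by exact_mod_cast hM0
  set A := a + S + 1 with hA
  have hA1 : 1 ≤ A := by omega
  set T := A * M with hT
  have hT1 : 1 ≤ T := Nat.mul_pos hA1 hM0
  set p := g * T with hp
  set q := (g + 1) * T with hq
  set N := (g + 2) * T with hN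
  have hq1 : 1 ≤ q := Nat.mul_pos (by omega) hT1
  have hpN : p ≤ N := by rw [hp, hN]; exact Nat.mul_le_mul_right _ (by omega)
  have hqN : q ≤ N := by rw [hq, hN]; exact Nat.mul_le_mul_right _ (by omega)
  have hqT : q + T = N := by rw [hq, hN]; ring
  have hMT : M ≤ T := Nat.le_mul_of_pos_left _ (by omega)
  have h3N : 3 * M ≤ N := by
    have h1 : 3 * T ≤ N := by rw [hN]; exact Nat.mul_le_mul_right _ (by omega)
    omega
  have hN1 : 1 ≤ N := by omega
  have hTN : T ≤ N := by omega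
  set D : ℝ := 100 * ((g : ℝ) + 2) * (a + S + 1) with hD
  have hgR : (1 : ℝ) ≤ g := by exact_mod_cast hg
  have haR : (1 : ℝ) ≤ a := by exact_mod_cast ha
  have hSR : (0 : ℝ) ≤ S := by positivity
  have hD100 : 100 ≤ D := by rw [hD]; nlinarith
  have hD1 : 1 ≤ D := by linarith
  have hAR : ((A : ℕ) : ℝ) = (a : ℝ) + S + 1 := by rw [hA]; push_cast; ring
  -- the two factors
  have hC : ∀ r, |PowerSeries.coeff r (ev ℝ p l (Cn ℝ M j))| ≤
      (13 * ((g + 2 : ℕ) : ℝ) * A) ^ (2 * j) * Real.exp M := fun r =>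
    bdsk_Cn p l M j (g + 2) A hl' hM0 (by omega) hA1 hpN (lt_of_lt_of_le hj hTN) r
  have hAm : ∀ r, |PowerSeries.coeff r (ev ℝ p l (Am ℝ M q))| ≤
      (4 * (N : ℝ) + 1) * ((28 * ((g + 2 : ℕ) : ℝ) * A) ^ (2 * q - 1) * Real.exp M) := fun r =>
    bdsk_Am p l M q (g + 2) A hl' hM0 (by omega) hA1 hpN hqN hq1 r
  set B1 := (4 * (N : ℝ) + 1) * ((28 * ((g + 2 : ℕ) : ℝ) * A) ^ (2 * q - 1) * Real.exp M) with hB1
  set B2 := (13 * ((g + 2 : ℕ) : ℝ) * A) ^ (2 * j) * Real.exp M with hB2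
  have hB10 : 0 ≤ B1 := by rw [hB1]; positivity
  have hB20 : 0 ≤ B2 := by rw [hB2]; positivity
  have hhA : ∀ r', |PowerSeries.coeff r' (hl ℝ p l ^ ((k + r) % 2) * ev ℝ p l (Am ℝ M q))| ≤
      (2 * (p : ℝ) + 1) * B1 := fun r' =>
    bdsk_hl p l ((k + r) % 2) hl' (by omega) _ B1 hAm r'
  set F : PowerSeries ℝ := hl ℝ p l ^ ((k + r) % 2) * ev ℝ p l (Am ℝ M q * Cn ℝ M j) with hF
  have hF1 : ∀ r', |PowerSeries.coeff r' F| ≤ ((r' : ℝ) + 1) * ((2 * (p : ℝ) + 1) * B1 * B2) := by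
    intro r'
    have e1 : F = (hl ℝ p l ^ ((k + r) % 2) * ev ℝ p l (Am ℝ M q)) * ev ℝ p l (Cn ℝ M j) := by
      rw [hF, ev, ev, ev, map_mul]
      ring
    rw [e1]
    exact bdsk_mul _ _ _ _ hhA hC r'
  set W : ℝ := (2 * (p : ℝ) + 1) * B1 * B2 with hW
  have hW0 : 0 ≤ W := by rw [hW]; positivity
  -- the zeta part
  have hi2 : 3 ≤ i ∧ i ≤ a + S := by
    have := (mem_filter.1 hi).1
    rwa [mem_Icc] at this
  have hzp : zp ℝ (a + S) (Pi.single i 1) =
      PowerSeries.C (2 * ((2 : ℝ) ^ i - 1)) * PowerSeries.X ^ (i - 1) := by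
    rw [zp, Finset.sum_eq_single i]
    · rw [Pi.single_eq_same, mul_one]
    · intro i' _ hne
      rw [Pi.single_eq_of_ne hne, mul_zero, map_zero, zero_mul]
    · intro h
      exact absurd hi h
  have hc1 : |2 * ((2 : ℝ) ^ i - 1)| ≤ 2 ^ (a + S + 1) := by
    have h1 : (1 : ℝ) ≤ 2 ^ i := one_le_pow₀ (by norm_num)
    rw [abs_of_nonneg (by linarith)]
    have h2 : (2 : ℝ) ^ (i + 1) ≤ 2 ^ (a + S + 1) := pow_le_pow_right₀ (by norm_num) (by omega)
    have h3 : (2 : ℝ) ^ (i + 1) = 2 * 2 ^ i := by rw [pow_succ]; ring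
    linarith
  have hG : ∀ r', |PowerSeries.coeff r' (F * zp ℝ (a + S) (Pi.single i 1))| ≤
      2 ^ (a + S + 1) * (((r' : ℝ) + 1) * W) := by
    intro r'
    have e1 : F * zp ℝ (a + S) (Pi.single i 1) =
        PowerSeries.C (2 * ((2 : ℝ) ^ i - 1)) * (F * PowerSeries.X ^ (i - 1)) := by
      rw [hzp]; ring
    rw [e1, PowerSeries.coeff_C_mul, abs_mul]
    refine mul_le_mul hc1 ?_ (abs_nonneg _) (by positivity)
    rw [PowerSeries.coeff_mul_X_pow']
    split_ifs with h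
    · refine (hF1 _).trans ?_
      apply mul_le_mul_of_nonneg_right _ hW0
      have : ((r' - (i - 1) : ℕ) : ℝ) ≤ r' := by exact_mod_cast Nat.sub_le _ _
      linarith
    · rw [abs_zero]; positivity
  have hX : |PowerSeries.coeff m (PowerSeries.X ^ k *
      hs ℝ r (F * zp ℝ (a + S) (Pi.single i 1)))| ≤ (c0 : ℝ) * W := by
    have hcoef : ∀ m' ≤ m, |PowerSeries.coeff m' (hs ℝ r (F * zp ℝ (a + S) (Pi.single i 1)))| ≤
        (c0 : ℝ) * W := by
      intro m' hm'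
      rw [hs, PowerSeries.coeff_mk, abs_mul, abs_of_nonneg (by positivity)]
      have h1 : (((m' + r).choose r : ℕ) : ℝ) ≤ 2 ^ (a + S) := by
        have h2 : (m' + r).choose r ≤ 2 ^ (m' + r) := Nat.choose_le_two_pow _ _
        have h3 : 2 ^ (m' + r) ≤ 2 ^ (a + S) := Nat.pow_le_pow_right (by norm_num) (by omega)
        exact_mod_cast h2.trans h3
      have h4 := hG (m' + r)
      have h5 : ((m' + r : ℕ) : ℝ) + 1 ≤ A := by
        have : m' + r + 1 ≤ A := by omega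
        exact_mod_cast this
      calc (((m' + r).choose r : ℕ) : ℝ) *
            |PowerSeries.coeff (m' + r) (F * zp ℝ (a + S) (Pi.single i 1))|
          ≤ 2 ^ (a + S) * (2 ^ (a + S + 1) * ((A : ℝ) * W)) := by
            apply mul_le_mul h1 _ (abs_nonneg _) (by positivity)
            refine h4.trans ?_
            apply mul_le_mul_of_nonneg_left _ (by positivity)
            exact mul_le_mul_of_nonneg_right h5 hW0
        _ = (c0 : ℝ) * W := by
            rw [hc0]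
            push_cast
            rw [show 2 * (a + S) + 1 = (a + S) + (a + S + 1) by ring, pow_add]
            ring
    rw [PowerSeries.coeff_X_pow_mul']
    split_ifs with h
    · exact hcoef _ (Nat.sub_le _ _)
    · rw [abs_zero]; positivity
  refine hX.trans ?_
  -- numerics
  have hKN : (c0 : ℝ) ≤ 2 ^ N := by
    have h7 : (c0 : ℝ) ≤ N := by
      have : c0 ≤ N := by omega
      exact_mod_cast this
    have h8 : (N : ℝ) ≤ 2 ^ N := by exact_mod_cast Nat.lt_two_pow_self.le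
    linarith
  have hpN2 : 2 * (p : ℝ) + 1 ≤ 3 ^ N := by
    have h9 : (p : ℝ) ≤ N := by exact_mod_cast hpN
    have h10 : 1 + (N : ℝ) * 2 ≤ (1 + 2) ^ N := one_add_mul_le_pow (by norm_num) N
    have h11 : ((1 : ℝ) + 2) ^ N = 3 ^ N := by norm_num
    rw [h11] at h10
    linarith
  have hN2 : 4 * (N : ℝ) + 1 ≤ 5 ^ N := by
    have h10 : 1 + (N : ℝ) * 4 ≤ (1 + 4) ^ N := one_add_mul_le_pow (by norm_num) N
    have h11 : ((1 : ℝ) + 4) ^ N = 5 ^ N := by norm_num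
    rw [h11] at h10
    linarith
  have h12 : (c0 : ℝ) * (2 * (p : ℝ) + 1) * (4 * (N : ℝ) + 1) ≤ D ^ N := by
    calc (c0 : ℝ) * (2 * (p : ℝ) + 1) * (4 * (N : ℝ) + 1) ≤ 2 ^ N * 3 ^ N * 5 ^ N :=
          mul_le_mul (mul_le_mul hKN hpN2 (by positivity) (by positivity)) hN2 (by positivity)
            (by positivity)
      _ = 30 ^ N := by rw [← mul_pow, ← mul_pow]; norm_num
      _ ≤ D ^ N := pow_le_pow_left₀ (by norm_num) (by linarith) _
  have hbase : 28 * ((g + 2 : ℕ) : ℝ) * A ≤ D := by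
    rw [hD, hAR]; push_cast
    have : (0 : ℝ) ≤ ((g : ℝ) + 2) * (a + S + 1) := by positivity
    nlinarith
  have hbase2 : 13 * ((g + 2 : ℕ) : ℝ) * A ≤ D := by
    rw [hD, hAR]; push_cast
    have : (0 : ℝ) ≤ ((g : ℝ) + 2) * (a + S + 1) := by positivity
    nlinarith
  have hexp : Real.exp M * Real.exp M ≤ D ^ N := by
    have h3 : Real.exp M = Real.exp 1 ^ M := by
      rw [← Real.exp_nat_mul, mul_one]
    rw [h3, ← mul_pow]
    have h4 : Real.exp 1 * Real.exp 1 ≤ D := by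
      have h5 := Real.exp_one_lt_d9
      have h6 := Real.exp_pos 1
      nlinarith
    refine (pow_le_pow_left₀ (by positivity) h4 _).trans ?_
    exact pow_le_pow_right₀ hD1 (by omega)
  have h13 : (28 * ((g + 2 : ℕ) : ℝ) * A) ^ (2 * q - 1) * (13 * ((g + 2 : ℕ) : ℝ) * A) ^ (2 * j) ≤
      D ^ (2 * N) := by
    calc (28 * ((g + 2 : ℕ) : ℝ) * A) ^ (2 * q - 1) * (13 * ((g + 2 : ℕ) : ℝ) * A) ^ (2 * j)
        ≤ D ^ (2 * q - 1) * D ^ (2 * j) :=
          mul_le_mul (pow_le_pow_left₀ (by positivity) hbase _)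
            (pow_le_pow_left₀ (by positivity) hbase2 _) (by positivity) (by positivity)
      _ = D ^ (2 * q - 1 + 2 * j) := by rw [pow_add]
      _ ≤ D ^ (2 * N) := pow_le_pow_right₀ hD1 (by omega)
  calc (c0 : ℝ) * W = ((c0 : ℝ) * (2 * (p : ℝ) + 1) * (4 * (N : ℝ) + 1)) *
        (((28 * ((g + 2 : ℕ) : ℝ) * A) ^ (2 * q - 1) * (13 * ((g + 2 : ℕ) : ℝ) * A) ^ (2 * j)) *
          (Real.exp M * Real.exp M)) := by
        rw [hW, hB1, hB2]; ring
    _ ≤ D ^ N * (D ^ (2 * N) * D ^ N) := by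
        apply mul_le_mul h12 _ (by positivity) (by positivity)
        exact mul_le_mul h13 hexp (by positivity) (by positivity)
    _ = D ^ (4 * N) := by
        rw [← pow_add, ← pow_add]
        congr 1
        ring

end Pool.Agent.SK
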