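import Pool.Agent.DK.LINK
import Pool.Agent.SI.ENTS
import Pool.Agent.SI.HSL

/-!
# SK: rows over `K` are combinations of rational rows; integrality over `K`
-/

namespace Pool.Agent.SK

open Finset Pool.Agent.ZC Pool.Agent.SI Pool.Agent.DK

section cast

variable (K : Type) [Field K] [CharZero K]

theorem pm_Ap (q : ℕ) : (Ap ℚ q).map (Rat.castHom K) = Ap K q := by
  simp [Ap, Polynomial.map_prod]

theorem pm_Am (M q : ℕ) : (Am ℚ M q).map (Rat.castHom K) = Am K M q := by
  simp [Am, pm_Ap]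

theorem ps_gh (p l : ℕ) : ps K (gh ℚ p l) = gh K p l := by
  have h0 : ∀ k : ℕ, (2 * (k : ℚ) + 1) / 2 ≠ 0 := fun k => by positivity
  rw [gh, gh, map_add, map_sum, map_sum]
  congr 1
  · refine sum_congr rfl fun k _ => ?_
    rw [ps_inv K _ (by simpa using h0 k)]
    simp [ps]
  · refine sum_congr rfl fun k _ => ?_
    rw [ps_inv K _ (by simpa using h0 k)]
    simp [ps]

theorem ps_zp (T : ℕ) (z : ℕ → ℚ) : ps K (zp ℚ T z) = zp K T (fun i => (z i : K)) := by
  simp [ps, zp]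

theorem ps_Gh (p l T : ℕ) (z : ℕ → ℚ) :
    ps K (Gh ℚ p l T z) = Gh K p l T (fun i => (z i : K)) := by
  rw [Gh, Gh, map_sub, ps_gh, ps_zp]

end cast

/-- the zeta part of the `F` row -/
noncomputable def zRow (K : Type*) [Field K] (M p q T : ℕ) (z : ℕ → K) (l k r j : ℕ) :
    PowerSeries K :=
  PowerSeries.X ^ k * hs K r (hl K p l ^ ((k + r) % 2) * ev K p l (Am K M q * Cn K M j) * zp K T z)

section cast2

variable (K : Type) [Field K] [CharZero K]

theorem ps_fRow (M p q T : ℕ) (z : ℕ → ℚ) (l k r j : ℕ) :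
    ps K (fRow ℚ M p q T z l k r j) = fRow K M p q T (fun i => (z i : K)) l k r j := by
  rw [fRow, fRow, map_mul, map_pow, PowerSeries.map_X, ps_hs, map_mul, map_mul, map_pow, ps_hl,
    ps_ev, Polynomial.map_mul, pm_Am, pm_Cn, ps_Gh]

theorem ps_zRow (M p q T : ℕ) (z : ℕ → ℚ) (l k r j : ℕ) :
    ps K (zRow ℚ M p q T z l k r j) = zRow K M p q T (fun i => (z i : K)) l k r j := by
  rw [zRow, zRow, map_mul, map_pow, PowerSeries.map_X, ps_hs, map_mul, map_mul, map_pow, ps_hl,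
    ps_ev, Polynomial.map_mul, pm_Am, pm_Cn, ps_zp]

end cast2

section lin

variable (K : Type) [Field K]

theorem zp_lin (T : ℕ) (c : ℕ → K) :
    zp K T c = ∑ i ∈ oddS T, PowerSeries.C (c i) * zp K T (Pi.single i 1) := by
  have h : ∀ i ∈ oddS T, zp K T (Pi.single i 1) =
      PowerSeries.C (2 * ((2 : K) ^ i - 1)) * PowerSeries.X ^ (i - 1) := by
    intro i hi
    rw [zp, sum_eq_single_of_mem i hi]
    · rw [Pi.single_eq_same, mul_one]
    · intro j _ hj
      rw [Pi.single_eq_of_ne hj, mul_zero, map_zero, zero_mul]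
  rw [zp]
  refine sum_congr rfl fun i hi => ?_
  rw [h i hi, ← mul_assoc, ← map_mul]
  congr 2
  ring

theorem zp_zero (T : ℕ) : zp K T 0 = 0 := by
  simp [zp]

theorem zRow_lin (M p q T : ℕ) (c : ℕ → K) (l k r j : ℕ) :
    zRow K M p q T c l k r j =
      ∑ i ∈ oddS T, PowerSeries.C (c i) * zRow K M p q T (Pi.single i 1) l k r j := by
  have h : ∀ i, PowerSeries.C (c i) * zRow K M p q T (Pi.single i 1) l k r j =
      PowerSeries.X ^ k * hs K r (hl K p l ^ ((k + r) % 2) * ev K p l (Am K M q * Cn K M j) *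
        (PowerSeries.C (c i) * zp K T (Pi.single i 1))) := by
    intro i
    have e : hl K p l ^ ((k + r) % 2) * ev K p l (Am K M q * Cn K M j) *
        (PowerSeries.C (c i) * zp K T (Pi.single i 1)) =
        PowerSeries.C (c i) * (hl K p l ^ ((k + r) % 2) * ev K p l (Am K M q * Cn K M j) *
          zp K T (Pi.single i 1)) := by ring
    rw [zRow, e, hsK_C]
    ring
  simp_rw [h]
  rw [← mul_sum, ← hsK_sum, ← mul_sum, ← zp_lin, zRow]

theorem fRow_split (M p q T : ℕ) (z : ℕ → K) (l k r j : ℕ) :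
    fRow K M p q T z l k r j = fRow K M p q T 0 l k r j + zRow K M p q T z l k r j := by
  have e : Gh K p l T z = Gh K p l T 0 + zp K T z := by
    rw [Gh, Gh, zp_zero]
    ring
  rw [fRow, fRow, zRow, e, mul_add, hsK_add, mul_add]

end lin

section coeff

variable (K : Type) [Field K] [CharZero K]

/-- zeta part of the `F` rows: combination of the rational rows with `z = e_i` -/
theorem sk_lin_z (M p q T : ℕ) (z : ℕ → K) (l k r j m : ℕ) :
    PowerSeries.coeff m (zRow K M p q T z l k r j) =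
      ∑ i ∈ oddS T, z i *
        ((PowerSeries.coeff m (zRow ℚ M p q T (Pi.single i 1) l k r j) : ℚ) : K) := by
  rw [zRow_lin, map_sum]
  refine sum_congr rfl fun i _ => ?_
  rw [PowerSeries.coeff_C_mul, ← ps_coeff, ps_zRow]
  congr 3
  funext n
  by_cases h : n = i
  · subst h
    simp
  · simp [Pi.single_eq_of_ne h]

/-- `F` rows: rational row with `z = 0` plus a combination of the rational rows with `z = e_i` -/
theorem sk_lin_f (M p q T : ℕ) (z : ℕ → K) (l k r j m : ℕ) :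
    PowerSeries.coeff m (fRow K M p q T z l k r j) =
      ((PowerSeries.coeff m (fRow ℚ M p q T 0 l k r j) : ℚ) : K) + ∑ i ∈ oddS T, z i *
        ((PowerSeries.coeff m (zRow ℚ M p q T (Pi.single i 1) l k r j) : ℚ) : K) := by
  rw [fRow_split, map_add, sk_lin_z]
  congr 1
  rw [← ps_coeff, ps_fRow]
  congr 2
  funext n
  simp

/-- the polynomial part of the companion rows is rational -/
theorem sk_lin_c (M p l s i m : ℕ) :
    PowerSeries.coeff m (hl K p l ^ s * ev K p l (Cn K M i)) =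
      ((PowerSeries.coeff m (hl ℚ p l ^ s * ev ℚ p l (Cn ℚ M i)) : ℚ) : K) := by
  have e : ps K (hl ℚ p l ^ s * ev ℚ p l (Cn ℚ M i)) = hl K p l ^ s * ev K p l (Cn K M i) := by
    rw [map_mul, map_pow, ps_hl, ps_ev, pm_Cn]
  rw [← ps_coeff, e]

theorem sk_cast_int {D : ℕ} {q : ℚ} (h : ∃ w : ℤ, (D : ℚ) * q = w) :
    IsIntegral ℤ ((D : K) * (q : K)) := by
  obtain ⟨w, hw⟩ := h
  have e : (D : K) * (q : K) = algebraMap ℤ K w := by
    have := congrArg (fun t : ℚ => (t : K)) hw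
    push_cast at this
    rw [this]
    simp
  rw [e]
  exact isIntegral_algebraMap

/-- entries of the rational zeta rows -/
theorem zRow_int {d M a S : ℕ} (hM : 0 < M) (hd : ∀ q : ℕ, 1 ≤ q → q ≤ 2 * M → q ∣ d)
    (T i : ℕ) (p l q : ℕ) (hl : l < p) (hq : p ≤ q) (k r j m : ℕ) (hr : r ≤ S) (hm : m < a) :
    ∃ w : ℤ, ((1 * d ^ (a + S + 1) : ℕ) : ℚ) *
      PowerSeries.coeff m (zRow ℚ M p q T (Pi.single i 1) l k r j) = w := by
  obtain ⟨w1, h1⟩ := fRow_int (a := a) (S := S) hM hd T (Pi.single i 1) 1 (by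
    intro n _
    by_cases h : n = i
    · subst h
      exact ⟨1, by simp⟩
    · exact ⟨0, by rw [Pi.single_eq_of_ne h]; simp⟩) p l q hl hq k r j m hr hm
  obtain ⟨w2, h2⟩ := fRow_int (a := a) (S := S) hM hd T 0 1 (fun n _ => ⟨0, by simp⟩)
    p l q hl hq k r j m hr hm
  refine ⟨w1 - w2, ?_⟩
  rw [fRow_split, map_add, mul_add] at h1
  push_cast
  rw [← h1, ← h2]
  push_cast
  ring

/-- entries of the companion rows over `K` -/
theorem cRow_intK {d M a : ℕ} (hM : 0 < M) (hd : ∀ q : ℕ, 1 ≤ q → q ≤ 2 * M → q ∣ d) {J : Type}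
    (ψ : J → PowerSeries K) (σ : J → ℕ) (D0 : ℕ) (p l : ℕ) (j : J)
    (hψ : ∀ m < a, IsIntegral ℤ ((D0 : K) * PowerSeries.coeff m (ψ j))) (i m : ℕ) (hm : m < a) :
    IsIntegral ℤ (((D0 * d ^ a : ℕ) : K) * PowerSeries.coeff m (cRow K M p ψ σ l j i)) := by
  rw [cRow, PowerSeries.coeff_mul, mul_sum]
  refine IsIntegral.sum _ fun u hu => ?_
  rw [HasAntidiagonal.mem_antidiagonal] at hu
  have h1 := hψ u.1 (by omega)
  have h2 : IsIntegral ℤ (((d ^ a : ℕ) : K) *
      ((PowerSeries.coeff u.2 (hl ℚ p l ^ σ j * ev ℚ p l (Cn ℚ M i)) : ℚ) : K)) := by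
    refine sk_cast_int K ?_
    obtain ⟨w, hw⟩ := cRow_int (a := a) hM hd (fun _ : Unit => (1 : PowerSeries ℚ))
      (fun _ => σ j) 1 p l () (fun m _ => by
        rw [PowerSeries.coeff_one]
        split_ifs
        · exact ⟨1, by simp⟩
        · exact ⟨0, by simp⟩) i u.2 (by omega)
    refine ⟨w, ?_⟩
    rw [cRow, one_mul, one_mul] at hw
    exact hw
  rw [← sk_lin_c] at h2
  have e : ((D0 * d ^ a : ℕ) : K) * (PowerSeries.coeff u.1 (ψ j) *
      PowerSeries.coeff u.2 (hl K p l ^ σ j * ev K p l (Cn K M i))) =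
      ((D0 : K) * PowerSeries.coeff u.1 (ψ j)) * (((d ^ a : ℕ) : K) *
        PowerSeries.coeff u.2 (hl K p l ^ σ j * ev K p l (Cn K M i))) := by
    push_cast
    ring
  rw [e]
  exact h1.mul h2

/-- entries of the `F` rows over `K` -/
theorem fRow_intK {d M a S : ℕ} (hM : 0 < M) (hd : ∀ q : ℕ, 1 ≤ q → q ≤ 2 * M → q ∣ d)
    (T : ℕ) (z : ℕ → K) (D0 : ℕ) (hz : ∀ i ∈ oddS T, IsIntegral ℤ ((D0 : K) * z i)) (p l q : ℕ)
    (hl : l < p) (hq : p ≤ q) (k r j m : ℕ) (hr : r ≤ S) (hm : m < a) :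
    IsIntegral ℤ (((D0 * d ^ (a + S + 1) : ℕ) : K) *
      PowerSeries.coeff m (fRow K M p q T z l k r j)) := by
  rw [sk_lin_f, mul_add, mul_sum]
  refine IsIntegral.add ?_ (IsIntegral.sum _ fun i hi => ?_)
  · exact sk_cast_int K (fRow_int hM hd T 0 D0 (fun n _ => ⟨0, by simp⟩) p l q hl hq k r j m hr hm)
  · have h1 := sk_cast_int K (zRow_int (a := a) (S := S) hM hd T i p l q hl hq k r j m hr hm)
    have e : ((D0 * d ^ (a + S + 1) : ℕ) : K) * (z i *
        ((PowerSeries.coeff m (zRow ℚ M p q T (Pi.single i 1) l k r j) : ℚ) : K)) =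
        ((D0 : K) * z i) * (((1 * d ^ (a + S + 1) : ℕ) : K) *
        ((PowerSeries.coeff m (zRow ℚ M p q T (Pi.single i 1) l k r j) : ℚ) : K)) := by
      push_cast
      ring
    rw [e]
    exact (hz i hi).mul h1

end coeff

/-- common denominator of finitely many elements of a number field -/
theorem ONE_denK {K : Type} [Field K] [NumberField K] (a T : ℕ) {J : Type} [Fintype J]
    (ψ : J → PowerSeries K) (z : ℕ → K) :
    ∃ D0 : ℕ, 0 < D0 ∧ (∀ i ∈ oddS T, IsIntegral ℤ ((D0 : K) * z i)) ∧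
      ∀ j, ∀ m < a, IsIntegral ℤ ((D0 : K) * PowerSeries.coeff m (ψ j)) := by
  classical
  obtain ⟨y, hy0, hy⟩ := exists_integral_multiples ℤ ℚ (L := K)
    ((oddS T).image z ∪ univ.biUnion fun j => (range a).image fun m => PowerSeries.coeff m (ψ j))
  have key : ∀ a : K, IsIntegral ℤ (y • a) → IsIntegral ℤ ((y.natAbs : K) * a) := by
    intro a ha
    have e1 : y • a = (y : K) * a := by simp
    rw [e1] at ha
    rcases Int.natAbs_eq y with h | h
    · rw [h] at ha
      simpa using ha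
    · rw [h] at ha
      have h2 := ha.neg
      simpa using h2
  refine ⟨y.natAbs, Int.natAbs_pos.2 hy0, ?_, ?_⟩
  · intro i hi
    exact key _ (hy _ (mem_union_left _ (mem_image_of_mem _ hi)))
  · intro j m hm
    exact key _ (hy _ (mem_union_right _ (mem_biUnion.2 ⟨j, mem_univ _,
      mem_image_of_mem (fun m => PowerSeries.coeff m (ψ j)) (mem_range.2 hm)⟩)))

end Pool.Agent.SK
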