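import Pool.Agent.SK.ONESA
import Pool.Agent.SK.PRJSK
import Pool.Agent.SK.BDSK
import Pool.Agent.SK.ENTSK

/-!
# SK: short intervals over a number field, the determinant inequality for large `M`

Pattern `SI/ONE2.si_one2`, rows over `K`, product formula (`SK/PRJSK.det_ineq_piK`).
-/

namespace Pool.Agent.SK

open Finset Pool.Agent.ZC Pool.Agent.SI

/-- for fixed data and `M` large: the determinant inequality over a number field `K` -/
theorem si_one2K {K : Type} [Field K] [NumberField K] (τ : K →+* ℝ) (g S k0 a Lx : ℕ) (Cst : ℝ)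
    (hCst : 100 ≤ Cst) (hL : 0 < Lx)
    (hNR : ∃ M0 : ℕ, ∀ M ≥ M0, NRfam g S k0 a Lx M
      ((Cst * ((g : ℝ) + 2) * (a + S + 1)) ^ (4 * ((g + 2) * ((a + S + 1) * M)))))
    (hg : 1 ≤ g) (ha : 1 ≤ a) {J : Type} [Fintype J]
    (ψ : J → PowerSeries K) (σ : J → ℕ) (hσ : ∀ j, σ j ≤ 1)
    (hψ : ∀ j, PowerSeries.evalNegHom (ψ j) = PowerSeries.C ((-1 : K) ^ σ j) * ψ j) (z : ℕ → K)
    (hi : (g + 2) * (k0 + 1 + Fintype.card J) + (k0 + 1) * (S + 1) + 1 ≤ g * (a - k0))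
    (J0 : Finset ℕ) (hJ0 : ∀ e ∈ J0, e < a)
    (hJ1 : ∀ e ∈ J0, ∃ j, σ j = e % 2 ∧ ψ j = PowerSeries.X ^ e)
    (H0 : ∀ k ≤ k0, ∃ j, σ j = k % 2 ∧ ψ j = PowerSeries.X ^ k)
    (H1 : ∀ k ≤ k0, ∀ r ≤ S, ∃ α : J → ℝ, (∀ j, α j ≠ 0 → σ j = (k + r) % 2) ∧ ∀ m < a,
      PowerSeries.coeff m (PowerSeries.X ^ k *
        hs ℝ r (zp ℝ (a + S) (fun i => zr i - τ (z i)))) =
          ∑ j, α j * τ (PowerSeries.coeff m (ψ j))) :
    ∃ D0 : ℕ, 0 < D0 ∧ ∃ Λ : ℝ, 1 ≤ Λ ∧ ∃ M0 : ℕ, ∀ M ≥ M0, ∃ R T : ℕ, 1 ≤ R ∧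
      R ≤ g * ((a + S + 1) * M) * (a - J0.card) ∧
      1 ≤ T ∧ T ≤ (2 * g * (a + S + 1)) ^ (2 * g * (a + S + 1) * M) ∧
      1 ≤ (((D0 * Nat.lcmUpto (2 * M) ^ (a + S + 1) *
          (T * Nat.lcmUpto (2 * M) ^ a) : ℕ) : ℝ) ^ R *
        ((R.factorial : ℝ) *
        (Λ * (Cst * ((g : ℝ) + 2) * (a + S + 1)) ^ (4 * ((g + 2) * ((a + S + 1) * M))) *
          (1 + ((g * ((a + S + 1) * M) * J0.card : ℕ) : ℝ) *
            (((a + 1).factorial * 2 ^ (a + 1) : ℕ) *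
              (2 ^ a * (2 * (g * ((a + S + 1) * M) : ℕ) + 1) ^ 2 *
                4 ^ (g * ((a + S + 1) * M)))))) ^ R)) ^ (Module.finrank ℚ K) *
        (((1 / 2) ^ ((1 : ℝ) / (2 * ((k0 + 1) * Lx : ℕ)))) ^
          (((k0 + 1) * ((S + 1) * ((a + S + 1) * M))) *
            ((k0 + 1) * ((S + 1) * ((a + S + 1) * M)) - 1) / 2) *
        (1 / (1 - (1 / 2) ^ ((1 : ℝ) / (2 * ((k0 + 1) * Lx : ℕ))))) ^
          ((k0 + 1) * ((S + 1) * ((a + S + 1) * M)))) := by
  classical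
  obtain ⟨D0, hD0, hDz, hDψ⟩ := ONE_denK a (a + S) ψ z
  obtain ⟨P0, hP0⟩ := one_modK K g S k0 a (a + S) hg ψ σ hσ hψ z hi
  obtain ⟨M1, hM1⟩ := bd_cRow g S a hg ha (J := Fin 2) (fun _ => (1 : PowerSeries ℝ))
    (fun s => (s : ℕ)) (fun s => by have := s.2; omega)
  obtain ⟨M3, hM3⟩ := sk_bd_z g S a hg ha
  obtain ⟨M2, hM2⟩ := hNR
  -- the constant
  set Wψ : (K →+* ℂ) → ℝ := fun ρ => ∑ j, ∑ x ∈ range a, ‖ρ (PowerSeries.coeff x (ψ j))‖ with hWψ
  set Wz : (K →+* ℂ) → ℝ := fun ρ => ∑ i ∈ oddS (a + S), (‖ρ (z i)‖ + |zr i|) with hWz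
  have hWψ0 : ∀ ρ, 0 ≤ Wψ ρ := fun ρ => by
    rw [hWψ]
    exact Finset.sum_nonneg fun j _ => Finset.sum_nonneg fun x _ => norm_nonneg _
  have hWz0 : ∀ ρ, 0 ≤ Wz ρ := fun ρ => by
    rw [hWz]
    exact Finset.sum_nonneg fun j _ => by positivity
  set Λ : ℝ := 2 + 2 * Lx + ∑ ρ : K →+* ℂ, (Wψ ρ + Wz ρ) with hΛ
  have hΛs : ∀ ρ, Wψ ρ + Wz ρ ≤ ∑ ρ : K →+* ℂ, (Wψ ρ + Wz ρ) := fun ρ =>
    Finset.single_le_sum (f := fun ρ => Wψ ρ + Wz ρ)
      (fun ρ _ => add_nonneg (hWψ0 ρ) (hWz0 ρ)) (Finset.mem_univ ρ)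
  have hΛ0 : 0 ≤ ∑ ρ : K →+* ℂ, (Wψ ρ + Wz ρ) :=
    Finset.sum_nonneg fun ρ _ => add_nonneg (hWψ0 ρ) (hWz0 ρ)
  have hLx0 : (0 : ℝ) ≤ Lx := Nat.cast_nonneg _
  have hΛ2 : 2 ≤ Λ := by rw [hΛ]; linarith
  have hΛψ : ∀ ρ, Wψ ρ ≤ Λ := fun ρ => by
    have := hΛs ρ
    have := hWz0 ρ
    rw [hΛ]; linarith
  have hΛz : ∀ ρ, Wz ρ + 2 * Lx ≤ Λ := fun ρ => by
    have := hΛs ρ
    have := hWψ0 ρ
    rw [hΛ]; linarith
  refine ⟨D0, hD0, Λ, by linarith, P0 + M1 + M2 + M3 + 1, fun M hM => ?_⟩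
  have hMP0 : P0 ≤ M := by omega
  have hMM1 : M1 ≤ M := by omega
  have hMM2 : M2 ≤ M := by omega
  have hMM3 : M3 ≤ M := by omega
  have hMpos : 0 < M := by omega
  obtain ⟨P, hP⟩ : ∃ P, P = (a + S + 1) * M := ⟨_, rfl⟩
  have hPM : M ≤ P := by rw [hP]; exact Nat.le_mul_of_pos_left _ (by omega)
  have hPpos : 0 < P := by omega
  have hcr := hM1 M hMM1
  have hzr := hM3 M hMM3
  obtain ⟨U, γ, hfam, hbd⟩ := hM2 M hMM2
  have hmod := hP0 P (by omega) M
  have hB : 2 * (g * ((a + S + 1) * M)) = 2 * g * (a + S + 1) * M := by ring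
  rw [← hP] at hcr hfam hbd hB hzr ⊢
  set d := Nat.lcmUpto (2 * M) with hd
  have hd0 : 0 < d := Nat.lcmUpto_pos _
  have hdd : ∀ q : ℕ, 1 ≤ q → q ≤ 2 * M → q ∣ d := fun q h1 h2 => dvd_lcmUpto h1 h2
  set p := g * P with hp
  set q := (g + 1) * P with hq
  set n := (g + 2) * P with hn
  have hpq : q = p + P := by rw [hq, hp]; ring
  have hqn : n = q + P := by rw [hn, hq]; ring
  have hpn : p ≤ n := by omega
  have hp1 : 1 ≤ p := Nat.mul_pos (by omega) hPpos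
  set N0 : ℝ := (Cst * ((g : ℝ) + 2) * (a + S + 1)) ^ (4 * n) with hN0
  have hN0pos : 0 ≤ N0 := by positivity
  have hN0' : (100 * ((g : ℝ) + 2) * (a + S + 1)) ^ (4 * n) ≤ N0 := by
    rw [hN0]
    gcongr
  have hNN : 2 * N0 ≤ Λ * N0 := mul_le_mul_of_nonneg_right hΛ2 hN0pos
  set Kx := (k0 + 1) * Lx with hKx
  have hKpos : 0 < Kx := by positivity
  set t : ℝ := (1 / 2) ^ ((1 : ℝ) / (2 * (Kx : ℕ))) with ht
  have hKr : (0 : ℝ) < Kx := by exact_mod_cast hKpos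
  have htpos : 0 ≤ t := Real.rpow_nonneg (by norm_num) _
  have ht1 : t < 1 := Real.rpow_lt_one (by norm_num) (by norm_num) (by positivity)
  have htk : t ^ (2 * Kx) = 1 / 2 := by
    rw [ht, ← Real.rpow_natCast, ← Real.rpow_mul (by norm_num)]
    have : (1 : ℝ) / (2 * (Kx : ℕ)) * ((2 * Kx : ℕ) : ℝ) = 1 := by
      push_cast
      field_simp
    rw [this, Real.rpow_one]
  have hf : ∀ j < P, (Am ℝ M q * Cn ℝ M j) ∈ Polynomial.degreeLT ℝ n := fun j hj => by
    rw [hqn]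
    exact ONE_Am_mem ℝ M q P _ (ONE_Cn_mem ℝ M j P hj)
  -- the rational companions are bounded
  have hcb : ∀ l < p, ∀ i < n, ∀ s ≤ 1, ∀ m < a,
      |PowerSeries.coeff m (hl ℝ p l ^ s * ev ℝ p l (Cn ℝ M i))| ≤ N0 := by
    intro l hlp i hi s hs m hm
    have h1 := hcr l hlp i hi ⟨s, by omega⟩ m hm
    rw [cRow, one_mul] at h1
    exact h1.trans hN0'
  have hzb : ∀ l < p, ∀ j < P, ∀ k, ∀ r ≤ S, ∀ i ∈ oddS (a + S), ∀ m < a,
      |PowerSeries.coeff m (zRow1 ℝ M p q (a + S) i l k r j)| ≤ N0 := by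
    intro l hlp j hj k r hr i hi m hm
    exact (hzr l hlp j hj k r hr i hi m hm).trans hN0'
  -- the real rows
  set ψr : J → PowerSeries ℝ := fun j => PowerSeries.map τ (ψ j) with hψr
  obtain ⟨R, T, hR1, hR2, hT1, hT2, hR3⟩ := det_ineq_piK (K := K) τ (Cc := J × Fin n)
    (Fi := Fin (k0 + 1) × Fin (S + 1) × Fin P) p a (2 * g * (a + S + 1)) M d J0 hp1 hJ0 hMpos hd0
    (fun x h1 h2 => hdd x h1 (by omega)) hB
    (fun r l m => match r with
      | .inl x => PowerSeries.coeff m (cRow K M p ψ σ l x.1 x.2)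
      | .inr x => PowerSeries.coeff m (fRow K M p q (a + S) z l x.1 x.2.1 x.2.2))
    (fun c f hcf => hmod c f fun l hl m hm => hcf l hl m hm)
    (by
      intro e he f hfe
      obtain ⟨je, hje1, hje2⟩ := hJ1 e he
      obtain ⟨β, hβ⟩ := exists_comb K M p f hfe
      refine ⟨fun y => if y.1 = je then (if h : (y.2 : ℕ) < p then β ⟨y.2, h⟩ else 0) else 0,
        fun l _ m _ => ?_⟩
      rw [Fintype.sum_prod_type, Finset.sum_eq_single je]
      · simp only [if_true]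
        have e1 : PowerSeries.X ^ e * (hl K p l ^ (e % 2) * ev K p l f) =
            ∑ i : Fin p, PowerSeries.C (β i) * cRow K M p ψ σ l je i := by
          rw [hβ, ONE_ev_sum, mul_sum, mul_sum]
          refine sum_congr rfl fun i _ => ?_
          rw [cRow, hje1, hje2, ONE_ev_mul, ONE_ev_C]
          ring
        rw [e1, map_sum]
        simp only [PowerSeries.coeff_C_mul]
        have e2 : ∀ F : ℕ → K, ∑ i : Fin n, (if h : (i : ℕ) < p then β ⟨i, h⟩ else 0) * F i =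
            ∑ i : Fin p, β i * F i := by
          intro F
          have e3 := Fin.sum_univ_eq_sum_range
            (fun i => (if h : i < p then β ⟨i, h⟩ else 0) * F i) n
          have e4 := Fin.sum_univ_eq_sum_range
            (fun i => (if h : i < p then β ⟨i, h⟩ else 0) * F i) p
          rw [e3, ← Finset.sum_subset (range_mono hpn)]
          · rw [← e4]
            exact sum_congr rfl fun i _ => by rw [dif_pos i.2]
          · intro i _ hi
            rw [mem_range, not_lt] at hi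
            rw [dif_neg (by omega), zero_mul]
        exact e2 fun i => PowerSeries.coeff m (cRow K M p ψ σ l je i)
      · intro j _ hj
        simp [hj]
      · intro h
        exact absurd (mem_univ _) h)
    (D0 * d ^ (a + S + 1)) (by positivity)
    (by
      rintro (x | x) l hl m hm
      · have hw := cRow_intK K hMpos hdd ψ σ D0 p l x.1 (hDψ x.1) x.2 m hm
        have hd' : IsIntegral ℤ (((d ^ (S + 1) : ℕ) : K)) := by
          rw [← map_natCast (algebraMap ℤ K)]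
          exact isIntegral_algebraMap
        have e : (((D0 * d ^ (a + S + 1) : ℕ)) : K) *
            PowerSeries.coeff m (cRow K M p ψ σ l x.1 x.2) =
            ((d ^ (S + 1) : ℕ) : K) * (((D0 * d ^ a : ℕ) : K) *
              PowerSeries.coeff m (cRow K M p ψ σ l x.1 x.2)) := by
          push_cast
          ring
        show IsIntegral ℤ ((((D0 * d ^ (a + S + 1) : ℕ)) : K) *
            PowerSeries.coeff m (cRow K M p ψ σ l x.1 x.2))
        rw [e]
        exact hd'.mul hw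
      · exact fRow_intK K hMpos hdd (a + S) z D0 hDz p l q hl (by omega) x.1 x.2.1 x.2.2 m
          (Nat.lt_succ_iff.1 x.2.1.2) hm)
    (Λ * N0) t (by positivity) htpos ht1
    (fun x κ' => if κ' % Kx / Lx = (x.1 : ℕ) then
      γ (κ' % Kx % Lx) x.1 x.2.1 x.2.2 (κ' / Kx) else 0)
    (fun κ' l m => PowerSeries.coeff m (U (κ' % Kx % Lx) (κ' % Kx / Lx) l (κ' / Kx)))
    (by
      intro ρ x l hl m hm
      have h1 := conj_cRow_bd ρ M p a ψ σ l x.1 (x.2 : ℕ) m hm N0 hN0pos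
        (fun m hm => hcb l hl x.2 x.2.2 (σ x.1) (hσ x.1) m hm)
      refine h1.trans (mul_le_mul_of_nonneg_right ?_ hN0pos)
      refine le_trans ?_ (hΛψ ρ)
      exact Finset.single_le_sum
        (f := fun j => ∑ x ∈ range a, ‖ρ (PowerSeries.coeff x (ψ j))‖)
        (fun j _ => Finset.sum_nonneg fun x _ => norm_nonneg _) (Finset.mem_univ x.1))
    (by
      intro ρ x
      obtain ⟨Q, hQ, hser⟩ := hfam x.1 (Nat.lt_succ_iff.1 x.1.2) x.2.1
        (Nat.lt_succ_iff.1 x.2.1.2) x.2.2 x.2.2.2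
      obtain ⟨j0, hj0, hj0'⟩ := H0 x.1 (Nat.lt_succ_iff.1 x.1.2)
      obtain ⟨β, hβ⟩ := exists_comb ℝ M n Q hQ
      refine ⟨fun y => if y.1 = j0 then ((β y.2 : ℝ) : ℂ) else 0, fun l hlp m hm => ?_⟩
      -- the combination of the companions
      have hT : ∑ y : J × Fin n, (if y.1 = j0 then ((β y.2 : ℝ) : ℂ) else 0) *
          ρ (PowerSeries.coeff m (cRow K M p ψ σ l y.1 y.2)) =
          ((PowerSeries.coeff m (PowerSeries.X ^ (x.1 : ℕ) *
            (hl ℝ p l ^ ((x.1 : ℕ) % 2) * ev ℝ p l Q)) : ℝ) : ℂ) := by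
        rw [Fintype.sum_prod_type, Finset.sum_eq_single j0]
        · simp only [if_true]
          have e1 : ∀ i : Fin n, ρ (PowerSeries.coeff m (cRow K M p ψ σ l j0 i)) =
              ((PowerSeries.coeff m (PowerSeries.X ^ (x.1 : ℕ) *
                (hl ℝ p l ^ ((x.1 : ℕ) % 2) * ev ℝ p l (Cn ℝ M i))) : ℝ) : ℂ) := by
            intro i
            have h1 : ρ (PowerSeries.coeff m (cRow K M p ψ σ l j0 i)) =
                PowerSeries.coeff m (PowerSeries.X ^ (x.1 : ℕ) *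
                  (hl ℂ p l ^ ((x.1 : ℕ) % 2) * ev ℂ p l (Cn ℂ M i))) := by
              rw [← PowerSeries.coeff_map, mk_cRow, cRow, hj0', hj0, map_pow, PowerSeries.map_X]
            have h2 := congrArg (PowerSeries.coeff m) (show PowerSeries.map Complex.ofRealHom
              (PowerSeries.X ^ (x.1 : ℕ) *
                (hl ℝ p l ^ ((x.1 : ℕ) % 2) * ev ℝ p l (Cn ℝ M i))) =
                PowerSeries.X ^ (x.1 : ℕ) *
                  (hl ℂ p l ^ ((x.1 : ℕ) % 2) * ev ℂ p l (Cn ℂ M i)) by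
              rw [map_mul, map_pow, PowerSeries.map_X, map_mul, map_pow, mk_hl, mk_ev, mk_Cn])
            rw [PowerSeries.coeff_map] at h2
            rw [h1, ← h2]
            rfl
          have e2 : PowerSeries.X ^ (x.1 : ℕ) * (hl ℝ p l ^ ((x.1 : ℕ) % 2) * ev ℝ p l Q) =
              ∑ i : Fin n, PowerSeries.C (β i) * (PowerSeries.X ^ (x.1 : ℕ) *
                (hl ℝ p l ^ ((x.1 : ℕ) % 2) * ev ℝ p l (Cn ℝ M i))) := by
            rw [hβ, ONE_ev_sum, mul_sum, mul_sum]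
            refine sum_congr rfl fun i _ => ?_
            rw [ONE_ev_mul, ONE_ev_C]
            ring
          rw [e2, map_sum, Complex.ofReal_sum]
          refine sum_congr rfl fun i _ => ?_
          rw [e1, PowerSeries.coeff_C_mul, Complex.ofReal_mul]
        · intro j _ hj
          simp [hj]
        · intro h
          exact absurd (mem_univ _) h
      show ‖ρ (PowerSeries.coeff m (fRow K M p q (a + S) z l x.1 x.2.1 x.2.2)) -
        ∑ y : J × Fin n, (if y.1 = j0 then ((β y.2 : ℝ) : ℂ) else 0) *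
          ρ (PowerSeries.coeff m (cRow K M p ψ σ l y.1 y.2))‖ ≤ Λ * N0
      rw [hT]
      have h1 := conj_fRow_bd ρ M p q (a + S) z l x.1 x.2.1 x.2.2 m N0
        (fun i hi => hzb l hlp x.2.2 x.2.2.2 x.1 x.2.1 (Nat.lt_succ_iff.1 x.2.1.2) i hi m hm)
      obtain ⟨s, hs1, hs2⟩ := hser l hlp m hm
      have h2 : |PowerSeries.coeff m (fRow ℝ M p q (a + S) zr l x.1 x.2.1 x.2.2) -
          PowerSeries.coeff m (PowerSeries.X ^ (x.1 : ℕ) *
            (hl ℝ p l ^ ((x.1 : ℕ) % 2) * ev ℝ p l Q))| ≤ 2 * Lx * N0 := by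
        have e3 : PowerSeries.coeff m (fRow ℝ M p q (a + S) zr l x.1 x.2.1 x.2.2) -
          PowerSeries.coeff m (PowerSeries.X ^ (x.1 : ℕ) *
            (hl ℝ p l ^ ((x.1 : ℕ) % 2) * ev ℝ p l Q)) = ∑ x' ∈ range Lx, s x' := by
          rw [hs2]
          rfl
        rw [e3]
        refine (abs_sum_le_sum_abs _ _).trans ?_
        have h4 : ∀ x' ∈ range Lx, |s x'| ≤ N0 * 2 := by
          intro x' hx'
          rw [mem_range] at hx'
          rw [← (hs1 x' hx').tsum_eq, ← Real.norm_eq_abs]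
          have hgeo : HasSum (fun κ : ℕ => N0 * (1 / 2 : ℝ) ^ κ) (N0 * 2) :=
            hasSum_geometric_two.mul_left N0
          exact tsum_of_norm_bounded hgeo fun κ => by
            rw [Real.norm_eq_abs]
            exact hbd x' hx' x.1 (Nat.lt_succ_iff.1 x.1.2) x.2.1 (Nat.lt_succ_iff.1 x.2.1.2)
              x.2.2 x.2.2.2 l hlp m hm κ
        refine (sum_le_sum h4).trans (le_of_eq ?_)
        rw [sum_const, card_range, nsmul_eq_mul]
        ring
      have h5 : ρ (PowerSeries.coeff m (fRow K M p q (a + S) z l x.1 x.2.1 x.2.2)) -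
          ((PowerSeries.coeff m (PowerSeries.X ^ (x.1 : ℕ) *
            (hl ℝ p l ^ ((x.1 : ℕ) % 2) * ev ℝ p l Q)) : ℝ) : ℂ) =
          (ρ (PowerSeries.coeff m (fRow K M p q (a + S) z l x.1 x.2.1 x.2.2)) -
            ((PowerSeries.coeff m (fRow ℝ M p q (a + S) zr l x.1 x.2.1 x.2.2) : ℝ) : ℂ)) +
          ((PowerSeries.coeff m (fRow ℝ M p q (a + S) zr l x.1 x.2.1 x.2.2) -
            PowerSeries.coeff m (PowerSeries.X ^ (x.1 : ℕ) *
              (hl ℝ p l ^ ((x.1 : ℕ) % 2) * ev ℝ p l Q)) : ℝ) : ℂ) := by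
        rw [Complex.ofReal_sub]
        ring
      rw [h5]
      refine (norm_add_le _ _).trans ?_
      rw [Complex.norm_real, Real.norm_eq_abs]
      have h6 : (∑ i ∈ oddS (a + S), (‖ρ (z i)‖ + |zr i|)) * N0 + 2 * Lx * N0 ≤ Λ * N0 := by
        rw [← add_mul]
        exact mul_le_mul_of_nonneg_right (hΛz ρ) hN0pos
      linarith)
    (by
      intro x κ' l hl m hm
      split_ifs with hκ
      · rw [hκ]
        refine (hbd (κ' % Kx % Lx) (Nat.mod_lt _ hL) x.1 (Nat.lt_succ_iff.1 x.1.2) x.2.1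
          (Nat.lt_succ_iff.1 x.2.1.2) x.2.2 x.2.2.2 l hl m hm (κ' / Kx)).trans ?_
        have h3 := ONE2_rate t Kx κ' hKpos htpos ht1.le htk
        have h4 := mul_le_mul_of_nonneg_left h3 hN0pos
        have h5 : 2 * N0 * t ^ (2 * κ') ≤ Λ * N0 * t ^ (2 * κ') :=
          mul_le_mul_of_nonneg_right hNN (by positivity)
        linarith
      · rw [zero_mul, abs_zero]
        positivity)
    (by
      intro x
      obtain ⟨Q, hQ, hser⟩ := hfam x.1 (Nat.lt_succ_iff.1 x.1.2) x.2.1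
        (Nat.lt_succ_iff.1 x.2.1.2) x.2.2 x.2.2.2
      -- the companion part
      have hE := rspan_E M p a n x.1 x.2.1 ψr σ (zp ℝ (a + S) (fun i => zr i - τ (z i)))
        (fun r' hr' => by
          obtain ⟨α, hα1, hα2⟩ := H1 x.1 (Nat.lt_succ_iff.1 x.1.2) r'
            (hr'.trans (Nat.lt_succ_iff.1 x.2.1.2))
          refine ⟨α, hα1, fun m hm => ?_⟩
          rw [hα2 m hm]
          refine sum_congr rfl fun j _ => ?_
          rw [hψr, PowerSeries.coeff_map])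
        (Am ℝ M q * Cn ℝ M x.2.2) (hf _ x.2.2.2)
      obtain ⟨j0, hj0, hj0'⟩ := H0 x.1 (Nat.lt_succ_iff.1 x.1.2)
      have hQm := rspan_psi M p a n ψr σ j0 Q hQ
      have hψj : ψr j0 = PowerSeries.X ^ (x.1 : ℕ) := by
        simp only [hψr]
        rw [hj0', map_pow, PowerSeries.map_X]
      rw [hj0, hψj] at hQm
      have hV := Submodule.sub_mem _ hQm hE
      rw [rspan, Submodule.mem_span_range_iff_exists_fun] at hV
      obtain ⟨α, hα⟩ := hV
      refine ⟨α, fun l hlp m hm => ?_⟩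
      have hαc := congrFun hα (⟨l, hlp⟩, ⟨m, hm⟩)
      rw [Finset.sum_apply] at hαc
      simp only [Pi.smul_apply, smul_eq_mul, Pi.sub_apply, ONE_jet] at hαc
      obtain ⟨s, hs1, hs2⟩ := hser l hlp m hm
      have h5 := ONE2_hasSum k0 x.1 Lx (Nat.lt_succ_iff.1 x.1.2) hL _ _ hs1
      rw [hs2] at h5
      have h6 : (fun κ' : ℕ => (if κ' % Kx / Lx = (x.1 : ℕ) then
          γ (κ' % Kx % Lx) x.1 x.2.1 x.2.2 (κ' / Kx) else 0) *
          PowerSeries.coeff m (U (κ' % Kx % Lx) (κ' % Kx / Lx) l (κ' / Kx))) =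
          fun κ' : ℕ => if κ' % Kx / Lx = (x.1 : ℕ) then
            γ (κ' % Kx % Lx) x.1 x.2.1 x.2.2 (κ' / Kx) *
            PowerSeries.coeff m (U (κ' % Kx % Lx) x.1 l (κ' / Kx)) else 0 := by
        funext κ'
        split_ifs with hκ
        · rw [hκ]
        · rw [zero_mul]
      rw [h6]
      convert h5 using 1
      have h7 : τ (PowerSeries.coeff m (fRow K M p q (a + S) z l x.1 x.2.1 x.2.2)) =
          PowerSeries.coeff m (PowerSeries.X ^ (x.1 : ℕ) * hs ℝ x.2.1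
            (hl ℝ p l ^ (((x.1 : ℕ) + x.2.1) % 2) * ev ℝ p l (Am ℝ M q * Cn ℝ M x.2.2) *
              Gh ℝ p l (a + S) (fun i => τ (z i)))) := by
        rw [← PowerSeries.coeff_map, mk_fRow, fRow]
      have h8 : PowerSeries.coeff m (PowerSeries.X ^ (x.1 : ℕ) * hs ℝ x.2.1
            (hl ℝ p l ^ (((x.1 : ℕ) + x.2.1) % 2) * ev ℝ p l (Am ℝ M q * Cn ℝ M x.2.2) *
              Gh ℝ p l (a + S) zr)) =
          PowerSeries.coeff m (PowerSeries.X ^ (x.1 : ℕ) * hs ℝ x.2.1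
            (hl ℝ p l ^ (((x.1 : ℕ) + x.2.1) % 2) * ev ℝ p l (Am ℝ M q * Cn ℝ M x.2.2) *
              Gh ℝ p l (a + S) (fun i => τ (z i)))) +
          PowerSeries.coeff m (PowerSeries.X ^ (x.1 : ℕ) * hs ℝ x.2.1
            (hl ℝ p l ^ (((x.1 : ℕ) + x.2.1) % 2) * ev ℝ p l (Am ℝ M q * Cn ℝ M x.2.2) *
              zp ℝ (a + S) (fun i => zr i - τ (z i)))) := by
        rw [ONE_Gh_split p l (a + S) (fun i => τ (z i)), mul_add, hs_add, mul_add, map_add]
      rw [h8]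
      show τ (PowerSeries.coeff m (fRow K M p q (a + S) z l x.1 x.2.1 x.2.2)) -
        ∑ y : J × Fin n, α y * τ (PowerSeries.coeff m (cRow K M p ψ σ l y.1 y.2)) = _
      rw [h7]
      have h9 : ∑ y : J × Fin n, α y * τ (PowerSeries.coeff m (cRow K M p ψ σ l y.1 y.2)) =
          PowerSeries.coeff m (PowerSeries.X ^ (x.1 : ℕ) *
            (hl ℝ p l ^ ((x.1 : ℕ) % 2) * ev ℝ p l Q)) -
          PowerSeries.coeff m (PowerSeries.X ^ (x.1 : ℕ) * hs ℝ x.2.1
            (hl ℝ p l ^ (((x.1 : ℕ) + x.2.1) % 2) * ev ℝ p l (Am ℝ M q * Cn ℝ M x.2.2) *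
              zp ℝ (a + S) (fun i => zr i - τ (z i)))) := by
        rw [← hαc]
        refine sum_congr rfl fun y _ => ?_
        rw [← PowerSeries.coeff_map, mk_cRow]
      rw [h9]
      ring)
  have hcardF : Fintype.card (Fin (k0 + 1) × Fin (S + 1) × Fin P) = (k0 + 1) * ((S + 1) * P) := by
    simp only [Fintype.card_prod, Fintype.card_fin]
  rw [hcardF] at hR1 hR3
  refine ⟨R, T, ?_, hR2, hT1, hT2, hR3⟩
  have : 0 < (k0 + 1) * ((S + 1) * P) := by positivity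
  omega

end Pool.Agent.SK
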