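import Pool.Agent.DK.JIN
import Pool.Agent.SI.LAP

/-!
# SIK: determinant inequalities over a number field

`det_ineqK`: as `Pool.Agent.ZC.det_ineq_filt`, for rows over a number field `K` with a real place
`τ`; all other places enter through the norm of the determinant.  `det_ineq_projK`: the same after
the projection along a block of companions.
-/

namespace Pool.Agent.SK

open Finset Module Pool.Agent.ZC Pool.Agent.SI Pool.Agent.DK

theorem det_ineqK {K : Type} [Field K] [NumberField K] (τ : K →+* ℝ) {Cc Fi Col : Type}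
    [Fintype Cc] [Fintype Fi] [Fintype Col] (v : Cc ⊕ Fi → Col → K)
    (hmod : ∀ (c : Cc → K) (f : Fi → K),
      (∀ x, ∑ i, c i * v (.inl i) x + ∑ j, f j * v (.inr j) x = 0) → ∀ j, f j = 0)
    (D : ℕ) (hD : 0 < D) (hint : ∀ r x, IsIntegral ℤ ((D : K) * v r x))
    (N t : ℝ) (hN : 0 ≤ N) (ht0 : 0 ≤ t) (ht1 : t < 1) (γ : Fi → ℕ → ℝ) (u : ℕ → Col → ℝ)
    (h1 : ∀ (ρ : K →+* ℂ) i x, ‖ρ (v (.inl i) x)‖ ≤ N)
    (hc : ∀ (ρ : K →+* ℂ) j, ∃ α : Cc → ℂ, ∀ x,
      ‖ρ (v (.inr j) x) - ∑ i, α i * ρ (v (.inl i) x)‖ ≤ N)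
    (h2 : ∀ j k x, |γ j k * u k x| ≤ N * t ^ (2 * k))
    (h3 : ∀ j, ∃ α : Cc → ℝ, ∀ x, HasSum (fun k => γ j k * u k x)
      (τ (v (.inr j) x) - ∑ i, α i * τ (v (.inl i) x))) :
    ∃ R : ℕ, Fintype.card Fi ≤ R ∧ R ≤ Fintype.card Cc + Fintype.card Fi ∧
      R ≤ Fintype.card Col ∧
      1 ≤ ((D : ℝ) ^ R * ((R.factorial : ℝ) * N ^ R)) ^ finrank ℚ K *
        (t ^ (Fintype.card Fi * (Fintype.card Fi - 1) / 2) *
          (1 / (1 - t)) ^ Fintype.card Fi) := by
  classical
  obtain ⟨b2, g, Δ, hR1, hR2, hGM, hΔ0, hΔi, hΔe⟩ := jd_struct (Ex := Empty) v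
    (fun _ e => e.elim) (Fintype.card Fi) ⊤ (by rw [finrank_top, finrank_fintype_fun_eq_card])
    (fun f _ e => e.elim) (fun f _ c h => funext fun j => hmod c f h j)
  set R := b2.card with hR
  have hRc : Fintype.card b2 = R := Fintype.card_coe b2
  set G : Finset b2 := univ.filter (fun r => r.1.isRight = true) with hG
  have memG : ∀ r : b2, r ∈ G ↔ r.1.isRight = true := by intro r; simp [hG]
  have hGF : G.card ≤ Fintype.card Fi := by
    have h5 : Function.Injective (fun r : G => (r.1.1 : Cc ⊕ Fi)) :=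
      Subtype.val_injective.comp Subtype.val_injective
    choose jj hjj using fun r : G => Sum.isRight_iff.1 ((memG r.1).1 r.2)
    have h6 : Function.Injective jj := by
      intro r r' h
      apply h5
      show r.1.1 = r'.1.1
      rw [hjj r, hjj r', h]
    have h7 := Fintype.card_le_of_injective jj h6
    rwa [Fintype.card_coe] at h7
  have hGc : G.card = Fintype.card Fi := by omega
  have hGR : G.card ≤ R := by
    have := Finset.card_le_univ G
    rwa [hRc] at this
  have hE : Fintype.card Empty = 0 := rfl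
  refine ⟨R, by omega, by omega, by omega, ?_⟩
  -- integrality
  have hint2 : IsIntegral ℤ ((D : K) ^ R * Δ) :=
    hΔi (integralClosure ℤ K).toSubring (D : K) hint (fun _ e => e.elim)
  have hDK : ((D : K) ^ R * Δ) ≠ 0 := mul_ne_zero (pow_ne_zero _ (by exact_mod_cast hD.ne')) hΔ0
  have hone := one_le_norm_prod _ hDK hint2
  -- the real place
  set τ' : K →ₐ[ℚ] ℂ := (Complex.ofRealHom.comp τ).toRatAlgHom with hτ'
  have hτ'a : ∀ a, τ' a = ((τ a : ℝ) : ℂ) := fun a => rfl
  choose α hα using h3
  set A : Matrix b2 b2 ℝ := Matrix.of fun r c =>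
    jent τ v (fun _ e => e.elim) (fun _ _ => (0 : ℝ)) α r.1 (g c) with hA
  have hdA : A.det = τ Δ := hΔe τ (fun _ _ => (0 : ℝ)) α
  have hgood := good_filt A G (fun _ => N) (fun _ => hN) t ht0 ht1
    (fun r k c => match r.1, g c with
      | .inr j, .inl y => γ j k * u k y
      | _, _ => 0)
    (fun k c => match g c with
      | .inl y => u k y
      | .inr _ => 0)
    (by
      intro r hr c
      obtain ⟨r, hrb⟩ := r
      rcases r with i | j
      · simp only [hA, Matrix.of_apply]
        rcases g c with y | e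
        · have h5 := h1 (Complex.ofRealHom.comp τ) i y
          have h6 : (Complex.ofRealHom.comp τ) (v (.inl i) y) = ((τ (v (.inl i) y) : ℝ) : ℂ) := rfl
          rw [h6, Complex.norm_real, Real.norm_eq_abs] at h5
          simpa [jent] using h5
        · exact e.elim
      · exact absurd ((memG _).2 rfl) hr)
    (by
      intro r hr k c
      obtain ⟨r, hrb⟩ := r
      rcases r with i | j
      · exact absurd ((memG _).1 hr) (by simp)
      · simp only
        rcases g c with y | e
        · exact h2 j k y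
        · exact e.elim)
    (by
      intro r hr k
      obtain ⟨r, hrb⟩ := r
      rcases r with i | j
      · exact absurd ((memG _).1 hr) (by simp)
      · refine ⟨0, fun i => if i = k then γ j k else 0, fun c => ?_⟩
        simp only
        rcases g c with y | e
        · simp [Finset.sum_ite_eq', ite_mul]
        · exact e.elim)
    (by
      intro r hr c
      obtain ⟨r, hrb⟩ := r
      rcases r with i | j
      · exact absurd ((memG _).1 hr) (by simp)
      · simp only [hA, Matrix.of_apply]
        rcases g c with y | e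
        · have h5 := hα j y
          simpa [jent] using h5
        · exact e.elim)
  rw [hdA, prod_const, card_univ, hRc, hGc] at hgood
  -- the trivial bound
  have htriv : ∀ ρ : K →ₐ[ℚ] ℂ, ‖ρ Δ‖ ≤ (R.factorial : ℝ) * N ^ R := by
    intro ρ
    choose β hβ using hc ρ.toRingHom
    have h5 := hΔe (ρ.toRingHom) (fun _ _ => (0 : ℂ)) β
    have h6 := det_norm_le (Matrix.of fun (r c : b2) => jent ρ.toRingHom v (fun _ e => e.elim)
      (fun _ _ => (0 : ℂ)) β r.1 (g c)) N (by
        intro r c
        obtain ⟨r, hrb⟩ := r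
        simp only [Matrix.of_apply]
        rcases r with i | j
        · rcases g c with y | e
          · simpa [jent] using h1 ρ.toRingHom i y
          · exact e.elim
        · rcases g c with y | e
          · simpa [jent] using hβ j y
          · exact e.elim)
    rw [h5, hRc] at h6
    exact h6
  -- conclusion
  set P : ℝ := (R.factorial : ℝ) * N ^ R with hP
  set Q : ℝ := t ^ (Fintype.card Fi * (Fintype.card Fi - 1) / 2) *
    (1 / (1 - t)) ^ Fintype.card Fi with hQ
  have hP0 : 0 ≤ P := by positivity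
  have ht : (0 : ℝ) ≤ 1 / (1 - t) := by
    apply div_nonneg (by norm_num)
    linarith
  have hQ0 : 0 ≤ Q := by positivity
  have hDR0 : (0 : ℝ) ≤ (D : ℝ) ^ R := by positivity
  have hDR : ∀ ρ : K →ₐ[ℚ] ℂ, ‖ρ ((D : K) ^ R * Δ)‖ = (D : ℝ) ^ R * ‖ρ Δ‖ := by
    intro ρ
    rw [map_mul, map_pow, map_natCast, norm_mul, norm_pow, Complex.norm_natCast]
  have hgood2 : ‖τ' Δ‖ ≤ P * Q := by
    rw [hτ'a, Complex.norm_real, Real.norm_eq_abs]
    refine hgood.trans (le_of_eq ?_)
    rw [hP, hQ]
    ring
  refine hone.trans ?_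
  rw [← Finset.mul_prod_erase univ _ (mem_univ τ')]
  have hcardE : (univ.erase τ').card + 1 = finrank ℚ K := by
    rw [card_erase_of_mem (mem_univ _), card_univ, AlgHom.card]
    have : 0 < finrank ℚ K := finrank_pos
    omega
  calc ‖τ' ((D : K) ^ R * Δ)‖ * ∏ ρ ∈ univ.erase τ', ‖ρ ((D : K) ^ R * Δ)‖
      ≤ ((D : ℝ) ^ R * (P * Q)) * ∏ _ρ ∈ univ.erase τ', ((D : ℝ) ^ R * P) := by
        rw [hDR]
        apply mul_le_mul
        · exact mul_le_mul_of_nonneg_left hgood2 hDR0
        · refine prod_le_prod (fun _ _ => norm_nonneg _) fun ρ _ => ?_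
          rw [hDR]
          exact mul_le_mul_of_nonneg_left (htriv ρ) hDR0
        · exact prod_nonneg fun _ _ => norm_nonneg _
        · positivity
    _ = _ := by
        rw [prod_const, ← hcardE, pow_succ]
        ring

end Pool.Agent.SK
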