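import Pool.Agent.SI.ONE2

/-!
# SK: the rows under a homomorphism of fields, conjugates of the rows
-/

namespace Pool.Agent.SK

open Finset Pool.Agent.ZC Pool.Agent.SI

section maps

variable {K L : Type*} [Field K] [Field L]

theorem mk_hs (τ : K →+* L) (h : ℕ) (f : PowerSeries K) :
    PowerSeries.map τ (hs K h f) = hs L h (PowerSeries.map τ f) := by
  ext r
  simp [hs]

theorem mk_hl (τ : K →+* L) (p l : ℕ) : PowerSeries.map τ (hl K p l) = hl L p l := by
  have t2 : τ 2 = 2 := map_ofNat τ 2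
  simp [hl, t2]

theorem mk_yl (τ : K →+* L) (p l : ℕ) : PowerSeries.map τ (yl K p l) = yl L p l := by
  have t2 : τ 2 = 2 := map_ofNat τ 2
  simp [yl, t2]

theorem mk_ev (τ : K →+* L) (p l : ℕ) (f : Polynomial K) :
    PowerSeries.map τ (ev K p l f) = ev L p l (f.map τ) := by
  rw [ev, ev, Polynomial.aeval_def, Polynomial.aeval_def, Polynomial.hom_eval₂, mk_yl,
    Polynomial.eval₂_map]
  congr 1
  ext c m
  simp

theorem mk_Cp (τ : K →+* L) (j : ℕ) : (Cp K j).map τ = Cp L j := by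
  have t2 : τ 2 = 2 := map_ofNat τ 2
  simp [Cp, Polynomial.map_prod, t2]

theorem mk_Cn (τ : K →+* L) (M j : ℕ) : (Cn K M j).map τ = Cn L M j := by
  have t2 : τ 4 = 4 := map_ofNat τ 4
  simp [Cn, mk_Cp, t2]

theorem mk_Ap (τ : K →+* L) (q : ℕ) : (Ap K q).map τ = Ap L q := by
  have t2 : τ 2 = 2 := map_ofNat τ 2
  simp [Ap, Polynomial.map_prod, t2]

theorem mk_Am (τ : K →+* L) (M q : ℕ) : (Am K M q).map τ = Am L M q := by
  have t2 : τ 2 = 2 := map_ofNat τ 2
  simp [Am, mk_Ap, t2]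

theorem mk_inv (τ : K →+* L) (f : PowerSeries K) (hf : PowerSeries.constantCoeff f ≠ 0) :
    PowerSeries.map τ f⁻¹ = (PowerSeries.map τ f)⁻¹ := by
  have h1 : PowerSeries.constantCoeff (PowerSeries.map τ f) ≠ 0 := by
    rw [← PowerSeries.coeff_zero_eq_constantCoeff_apply, PowerSeries.coeff_map,
      PowerSeries.coeff_zero_eq_constantCoeff_apply]
    exact (map_ne_zero τ).2 hf
  rw [PowerSeries.eq_inv_iff_mul_eq_one h1, ← map_mul, PowerSeries.inv_mul_cancel _ hf, map_one]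

theorem mk_gh [CharZero K] (τ : K →+* L) (p l : ℕ) :
    PowerSeries.map τ (gh K p l) = gh L p l := by
  have h0 : ∀ k : ℕ, (2 * (k : K) + 1) / 2 ≠ 0 := fun k => by
    have h1 : (2 * (k : K) + 1) ≠ 0 := by exact_mod_cast Nat.succ_ne_zero (2 * k)
    exact div_ne_zero h1 two_ne_zero
  have t2 : τ 2 = 2 := map_ofNat τ 2
  rw [gh, gh, map_add, map_sum, map_sum]
  congr 1
  · refine sum_congr rfl fun k _ => ?_
    rw [mk_inv τ _ (by simpa using h0 k)]
    simp [t2]
  · refine sum_congr rfl fun k _ => ?_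
    rw [mk_inv τ _ (by simpa using h0 k)]
    simp [t2]

theorem mk_zp (τ : K →+* L) (T : ℕ) (z : ℕ → K) :
    PowerSeries.map τ (zp K T z) = zp L T (fun i => τ (z i)) := by
  have t2 : τ 2 = 2 := map_ofNat τ 2
  simp [zp, t2]

theorem mk_Gh [CharZero K] (τ : K →+* L) (p l T : ℕ) (z : ℕ → K) :
    PowerSeries.map τ (Gh K p l T z) = Gh L p l T (fun i => τ (z i)) := by
  rw [Gh, Gh, map_sub, mk_gh, mk_zp]

theorem mk_cRow (τ : K →+* L) {J : Type} (M p : ℕ) (ψ : J → PowerSeries K) (σ : J → ℕ) (l : ℕ)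
    (j : J) (i : ℕ) : PowerSeries.map τ (cRow K M p ψ σ l j i) =
      cRow L M p (fun j => PowerSeries.map τ (ψ j)) σ l j i := by
  rw [cRow, cRow, map_mul, map_mul, map_pow, mk_hl, mk_ev, mk_Cn]

theorem mk_fRow [CharZero K] (τ : K →+* L) (M p q T : ℕ) (z : ℕ → K) (l k r j : ℕ) :
    PowerSeries.map τ (fRow K M p q T z l k r j) =
      fRow L M p q T (fun i => τ (z i)) l k r j := by
  rw [fRow, fRow, map_mul, map_pow, PowerSeries.map_X, mk_hs, map_mul, map_mul, map_pow, mk_hl,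
    mk_ev, Polynomial.map_mul, mk_Am, mk_Cn, mk_Gh]

end maps

/-! ### the zeta part of the rows -/

section zrow

variable (K : Type*) [Field K]

/-- zeta part of the `F` row, one zeta value -/
noncomputable def zRow1 (M p q T i l k r j : ℕ) : PowerSeries K :=
  PowerSeries.X ^ k * hs K r (hl K p l ^ ((k + r) % 2) * ev K p l (Am K M q * Cn K M j) *
    zp K T (Pi.single i 1))

theorem skhs_add (h : ℕ) (f g : PowerSeries K) : hs K h (f + g) = hs K h f + hs K h g := by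
  ext r
  simp only [hs, PowerSeries.coeff_mk, map_add]
  ring

theorem skhs_zero (h : ℕ) : hs K h 0 = 0 := by
  ext r
  simp [hs]

theorem skhs_C (h : ℕ) (c : K) (f : PowerSeries K) :
    hs K h (PowerSeries.C c * f) = PowerSeries.C c * hs K h f := by
  ext r
  simp only [hs, PowerSeries.coeff_mk, PowerSeries.coeff_C_mul]
  ring

theorem skhs_sum {ι : Type*} (s : Finset ι) (h : ℕ) (f : ι → PowerSeries K) :
    hs K h (∑ i ∈ s, f i) = ∑ i ∈ s, hs K h (f i) := by
  classical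
  induction s using Finset.induction_on with
  | empty => simp [skhs_zero]
  | insert i s hi ih => rw [sum_insert hi, sum_insert hi, skhs_add, ih]

theorem mz_zp_lin (T : ℕ) (c : ℕ → K) :
    zp K T c = ∑ i ∈ oddS T, PowerSeries.C (c i) * zp K T (Pi.single i 1) := by
  have h : ∀ i ∈ oddS T, zp K T (Pi.single i 1) =
      PowerSeries.C (2 * ((2 : K) ^ i - 1)) * PowerSeries.X ^ (i - 1) := by
    intro i hi
    rw [zp, sum_eq_single_of_mem i hi]
    · rw [Pi.single_eq_same, mul_one]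
    · intro j _ hj
      rw [Pi.single_eq_of_ne hj, mul_zero, map_zero, zero_mul]
  rw [zp]
  refine sum_congr rfl fun i hi => ?_
  rw [h i hi, ← mul_assoc, ← map_mul]
  congr 2
  ring

theorem mz_fRow_lin (M p q T : ℕ) (z : ℕ → K) (l k r j : ℕ) :
    fRow K M p q T z l k r j = fRow K M p q T 0 l k r j +
      ∑ i ∈ oddS T, PowerSeries.C (z i) * zRow1 K M p q T i l k r j := by
  have h0 : zp K T (0 : ℕ → K) = 0 := by
    rw [zp]
    refine sum_eq_zero fun i _ => ?_
    simp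
  have h1 : ∀ i, PowerSeries.C (z i) * zRow1 K M p q T i l k r j =
      PowerSeries.X ^ k * hs K r (hl K p l ^ ((k + r) % 2) * ev K p l (Am K M q * Cn K M j) *
        (PowerSeries.C (z i) * zp K T (Pi.single i 1))) := by
    intro i
    rw [zRow1, mul_left_comm, ← skhs_C]
    congr 2
    ring
  simp_rw [h1]
  rw [← mul_sum, ← skhs_sum, ← mul_sum, ← mz_zp_lin, fRow, fRow, ← mul_add, ← skhs_add, Gh, Gh, h0]
  congr 2
  ring

theorem mz_fRow_coeff (M p q T : ℕ) (z : ℕ → K) (l k r j m : ℕ) :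
    PowerSeries.coeff m (fRow K M p q T z l k r j) =
      PowerSeries.coeff m (fRow K M p q T 0 l k r j) +
      ∑ i ∈ oddS T, z i * PowerSeries.coeff m (zRow1 K M p q T i l k r j) := by
  rw [mz_fRow_lin, map_add, map_sum]
  simp only [PowerSeries.coeff_C_mul]

theorem mk_zRow1 {L : Type*} [Field L] (τ : K →+* L) (M p q T i l k r j : ℕ) :
    PowerSeries.map τ (zRow1 K M p q T i l k r j) = zRow1 L M p q T i l k r j := by
  have h : (fun n => τ ((Pi.single i 1 : ℕ → K) n)) = (Pi.single i 1 : ℕ → L) := by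
    funext n
    by_cases h : n = i
    · subst h; simp
    · rw [Pi.single_eq_of_ne h, Pi.single_eq_of_ne h, map_zero]
  rw [zRow1, zRow1, map_mul, map_pow, PowerSeries.map_X, mk_hs, map_mul, map_mul, map_pow, mk_hl,
    mk_ev, Polynomial.map_mul, mk_Am, mk_Cn, mk_zp, h]

end zrow

/-! ### conjugates -/

section conj

variable {K : Type} [Field K] [CharZero K]

/-- difference between a conjugate of an `F` row and the real `F` row -/
theorem conj_fRow (ρ : K →+* ℂ) (M p q T : ℕ) (z : ℕ → K) (l k r j m : ℕ) :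
    ρ (PowerSeries.coeff m (fRow K M p q T z l k r j)) =
      ((PowerSeries.coeff m (fRow ℝ M p q T zr l k r j) : ℝ) : ℂ) +
      ∑ i ∈ oddS T, (ρ (z i) - (zr i : ℂ)) *
        ((PowerSeries.coeff m (zRow1 ℝ M p q T i l k r j) : ℝ) : ℂ) := by
  have e1 : ρ (PowerSeries.coeff m (fRow K M p q T z l k r j)) =
      PowerSeries.coeff m (fRow ℂ M p q T (fun i => ρ (z i)) l k r j) := by
    rw [← PowerSeries.coeff_map, mk_fRow]
  have e2 : ((PowerSeries.coeff m (fRow ℝ M p q T zr l k r j) : ℝ) : ℂ) =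
      PowerSeries.coeff m (fRow ℂ M p q T (fun i => ((zr i : ℝ) : ℂ)) l k r j) := by
    have := mk_fRow Complex.ofRealHom M p q T zr l k r j
    have h2 := congrArg (PowerSeries.coeff m) this
    rw [PowerSeries.coeff_map] at h2
    exact h2
  have e3 : ∀ i, ((PowerSeries.coeff m (zRow1 ℝ M p q T i l k r j) : ℝ) : ℂ) =
      PowerSeries.coeff m (zRow1 ℂ M p q T i l k r j) := by
    intro i
    have := mk_zRow1 ℝ Complex.ofRealHom M p q T i l k r j
    have h2 := congrArg (PowerSeries.coeff m) this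
    rw [PowerSeries.coeff_map] at h2
    exact h2
  rw [e1, e2]
  simp_rw [e3]
  rw [mz_fRow_coeff ℂ M p q T (fun i => ρ (z i)), mz_fRow_coeff ℂ M p q T (fun i => ((zr i : ℝ) : ℂ)),
    add_assoc, ← sum_add_distrib]
  congr 1
  refine sum_congr rfl fun i _ => ?_
  ring

theorem conj_fRow_bd (ρ : K →+* ℂ) (M p q T : ℕ) (z : ℕ → K) (l k r j m : ℕ) (N : ℝ)
    (hz : ∀ i ∈ oddS T, |PowerSeries.coeff m (zRow1 ℝ M p q T i l k r j)| ≤ N) :
    ‖ρ (PowerSeries.coeff m (fRow K M p q T z l k r j)) -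
      ((PowerSeries.coeff m (fRow ℝ M p q T zr l k r j) : ℝ) : ℂ)‖ ≤
      (∑ i ∈ oddS T, (‖ρ (z i)‖ + |zr i|)) * N := by
  rw [conj_fRow, add_sub_cancel_left]
  refine (norm_sum_le _ _).trans ?_
  rw [sum_mul]
  refine sum_le_sum fun i hi => ?_
  rw [norm_mul, Complex.norm_real, Real.norm_eq_abs]
  have h1 : ‖ρ (z i) - (zr i : ℂ)‖ ≤ ‖ρ (z i)‖ + |zr i| := by
    refine (norm_sub_le _ _).trans ?_
    rw [Complex.norm_real, Real.norm_eq_abs]
  exact mul_le_mul h1 (hz i hi) (abs_nonneg _) (by positivity)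

omit [CharZero K] in
/-- conjugates of the companion rows -/
theorem conj_cRow_bd (ρ : K →+* ℂ) {J : Type} (M p a : ℕ) (ψ : J → PowerSeries K) (σ : J → ℕ)
    (l : ℕ) (j : J) (i m : ℕ) (hm : m < a) (N : ℝ) (hN : 0 ≤ N)
    (hb : ∀ m < a, |PowerSeries.coeff m (hl ℝ p l ^ σ j * ev ℝ p l (Cn ℝ M i))| ≤ N) :
    ‖ρ (PowerSeries.coeff m (cRow K M p ψ σ l j i))‖ ≤
      (∑ x ∈ range a, ‖ρ (PowerSeries.coeff x (ψ j))‖) * N := by
  have e1 : ρ (PowerSeries.coeff m (cRow K M p ψ σ l j i)) =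
      PowerSeries.coeff m (PowerSeries.map ρ (ψ j) * (hl ℂ p l ^ σ j * ev ℂ p l (Cn ℂ M i))) := by
    rw [← PowerSeries.coeff_map, mk_cRow, cRow]
  have e2 : ∀ x, PowerSeries.coeff x (hl ℂ p l ^ σ j * ev ℂ p l (Cn ℂ M i)) =
      ((PowerSeries.coeff x (hl ℝ p l ^ σ j * ev ℝ p l (Cn ℝ M i)) : ℝ) : ℂ) := by
    intro x
    have h2 := congrArg (PowerSeries.coeff x) (show PowerSeries.map Complex.ofRealHom
      (hl ℝ p l ^ σ j * ev ℝ p l (Cn ℝ M i)) = hl ℂ p l ^ σ j * ev ℂ p l (Cn ℂ M i) by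
        rw [map_mul, map_pow, mk_hl, mk_ev, mk_Cn])
    rw [PowerSeries.coeff_map] at h2
    exact h2.symm
  rw [e1, PowerSeries.coeff_mul]
  refine (norm_sum_le _ _).trans ?_
  have h3 : ∑ x ∈ antidiagonal m, ‖PowerSeries.coeff x.1 (PowerSeries.map ρ (ψ j)) *
      PowerSeries.coeff x.2 (hl ℂ p l ^ σ j * ev ℂ p l (Cn ℂ M i))‖ ≤
      ∑ x ∈ antidiagonal m, ‖ρ (PowerSeries.coeff x.1 (ψ j))‖ * N := by
    refine sum_le_sum fun x hx => ?_
    rw [HasAntidiagonal.mem_antidiagonal] at hx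
    rw [norm_mul, PowerSeries.coeff_map, e2, Complex.norm_real, Real.norm_eq_abs]
    exact mul_le_mul_of_nonneg_left (hb _ (by omega)) (norm_nonneg _)
  refine h3.trans ?_
  rw [← sum_mul]
  refine mul_le_mul_of_nonneg_right ?_ hN
  rw [Finset.Nat.sum_antidiagonal_eq_sum_range_succ_mk]
  exact sum_le_sum_of_subset_of_nonneg (range_subset_range.2 (by omega))
    fun x _ _ => norm_nonneg _

end conj

end Pool.Agent.SK
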