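import Pool.Agent.SI.ZES

/-!
# SK: the zero estimate for the rows over a field of characteristic zero
-/

namespace Pool.Agent.SK

open Finset Pool.Agent.ZC Pool.Agent.SI

theorem sik_ze (K : Type*) [Field K] [CharZero K] (g S k0 a T : ℕ) (hg : 1 ≤ g) {J : Type} [Fintype J] (ψ : J → PowerSeries K)
    (σ : J → ℕ) (hσ : ∀ j, σ j ≤ 1)
    (hψ : ∀ j, PowerSeries.evalNegHom (ψ j) = PowerSeries.C ((-1 : K) ^ σ j) * ψ j) (z : ℕ → K)
    (hi : (g + 2) * (k0 + 1 + Fintype.card J) + (k0 + 1) * (S + 1) + 1 ≤ g * (a - k0)) :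
    ∃ P0 : ℕ, ∀ P ≥ P0, ∀ q : J → Polynomial K,
      (∀ j, q j ∈ Polynomial.degreeLT K ((g + 2) * P)) →
      ∀ f : Fin (k0 + 1) → Fin (S + 1) → Polynomial K,
      (∀ k r, f k r ∈ Polynomial.degreeLT K P) →
      (∀ l < g * P, ∀ m < a, PowerSeries.coeff m
        (∑ j, ψ j * (hl K (g * P) l ^ σ j * ev K (g * P) l (q j)) +
          ∑ k : Fin (k0 + 1), ∑ r : Fin (S + 1), PowerSeries.X ^ (k : ℕ) *
            hs K r (hl K (g * P) l ^ (((k : ℕ) + r) % 2) *
              ev K (g * P) l (Ap K ((g + 1) * P) * f k r) * Gh K (g * P) l T z)) = 0) →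
      ∀ k r, f k r = 0 := by
  refine ⟨zeP S k0 a (Fintype.card J), fun P hP q hq f hf hrel => ?_⟩
  have hP1 : 1 ≤ P := le_trans (by unfold zeP; omega) hP
  have hdeg : ∀ (N : ℕ), 1 ≤ N → ∀ h : Polynomial K, h ∈ Polynomial.degreeLT K N → h.natDegree < N := by
    intro N hN h hh
    rw [Polynomial.mem_degreeLT] at hh
    by_cases h0 : h = 0
    · rw [h0, Polynomial.natDegree_zero]; omega
    · exact (Polynomial.natDegree_lt_iff_degree_lt h0).2 hh
  set n : ℕ → ℕ → Polynomial K := fun k r =>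
    if h : k < k0 + 1 ∧ r < S + 1 then f ⟨k, h.1⟩ ⟨r, h.2⟩ else 0 with hn
  have hnf : ∀ (k : Fin (k0 + 1)) (r : Fin (S + 1)), n k r = f k r := by
    intro k r
    simp only [hn]
    rw [dif_pos ⟨k.2, r.2⟩]
  have hall := ze_num (K := K) (S := S) (k0 := k0) g a P hi hP (Ap K ((g + 1) * P)) (ZES_Ap_ne_zero _)
    (fun μ hμ => ZES_Ap_eval _ μ hμ) n
    (by
      intro k hk r hr
      refine lt_of_le_of_lt Polynomial.natDegree_mul_le ?_
      rw [ZES_Ap_natDegree]
      have h1 : (n k r).natDegree < P := by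
        have h2 := hnf ⟨k, by omega⟩ ⟨r, by omega⟩
        simp only at h2
        rw [h2]
        exact hdeg P hP1 _ (hf _ _)
      have h3 : (g + 2) * P = (g + 1) * P + P := by ring
      omega)
    q (fun j => hdeg _ (Nat.mul_pos (by omega) (by omega)) _ (hq j)) σ hσ ψ hψ
    (fun l => Gh K (g * P) l T z)
    (by
      intro l hl
      simp only [Gh, map_sub]
      rw [ZES_sg_zp, ZES_sg_gh _ _ hl])
    (by
      intro l hl
      simp only [Gh]
      rw [sub_sub_sub_cancel_left]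
      exact ZES_gh_shift (g * P) l hl)
    (by
      intro l hl
      rw [PowerSeries.X_pow_dvd_iff]
      intro m hm
      have h1 := hrel l hl m hm
      simp only [ZES_wl]
      rw [← h1]
      congr 2
      rw [Finset.sum_range]
      refine Finset.sum_congr rfl fun k _ => ?_
      rw [Finset.sum_range, Finset.mul_sum]
      refine Finset.sum_congr rfl fun r _ => ?_
      rw [hnf])
  intro k r
  rw [← hnf]
  exact hall k (Nat.lt_succ_iff.1 k.2) r (Nat.lt_succ_iff.1 r.2)

end Pool.Agent.SK
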