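import Pool.Agent.SK.MAPSK
import Pool.Agent.SK.ZESK
import Mathlib.Algebra.Polynomial.Sequence

/-!
# SK: span of the real companions, independence modulo the companions over `K`
-/

namespace Pool.Agent.SK

open Finset Pool.Agent.ZC Pool.Agent.SI

/-! ### real span of the companions -/

/-- real span of the companion vectors -/
noncomputable def rspan {J : Type} [Fintype J] (M p a n : ℕ) (ψ : J → PowerSeries ℝ)
    (σ : J → ℕ) : Submodule ℝ (Fin p × Fin a → ℝ) :=
  Submodule.span ℝ (Set.range fun x : J × Fin n => ONE_jet p a (fun l => cRow ℝ M p ψ σ l x.1 x.2))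

theorem rspan_psi {J : Type} [Fintype J] (M p a n : ℕ) (ψ : J → PowerSeries ℝ) (σ : J → ℕ) (j : J)
    (Q : Polynomial ℝ) (hQ : Q ∈ Polynomial.degreeLT ℝ n) :
    ONE_jet p a (fun l => ψ j * (hl ℝ p l ^ σ j * ev ℝ p l Q)) ∈ rspan M p a n ψ σ := by
  obtain ⟨β, rfl⟩ := exists_comb ℝ M n Q hQ
  have e : (fun l => ψ j * (hl ℝ p l ^ σ j *
      ev ℝ p l (∑ i, Polynomial.C (β i) * Cn ℝ M i))) =
      fun l => ∑ i : Fin n, PowerSeries.C (β i) * cRow ℝ M p ψ σ l j i := by
    funext l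
    rw [ONE_ev_sum, mul_sum, mul_sum]
    refine sum_congr rfl fun i _ => ?_
    rw [cRow, ONE_ev_mul, ONE_ev_C]
    ring
  rw [e, ONE_jet_sum]
  refine Submodule.sum_mem _ fun i _ => ?_
  rw [ONE_jet_smul]
  exact Submodule.smul_mem _ _ (Submodule.subset_span ⟨(j, i), rfl⟩)

/-- product with a series that is a combination of the `ψ j` modulo `X^a` -/
theorem rspan_comb {J : Type} [Fintype J] (M p a n : ℕ) (ψ : J → PowerSeries ℝ) (σ : J → ℕ)
    (s : ℕ) (Q : Polynomial ℝ) (hQ : Q ∈ Polynomial.degreeLT ℝ n) (F : PowerSeries ℝ) (α : J → ℝ)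
    (hα : ∀ j, α j ≠ 0 → σ j = s)
    (hF : ∀ m < a, PowerSeries.coeff m F = ∑ j, α j * PowerSeries.coeff m (ψ j)) :
    ONE_jet p a (fun l => F * (hl ℝ p l ^ s * ev ℝ p l Q)) ∈ rspan M p a n ψ σ := by
  have e : ONE_jet p a (fun l => F * (hl ℝ p l ^ s * ev ℝ p l Q)) =
      ONE_jet p a (fun l => ∑ j, PowerSeries.C (α j) *
        (ψ j * (hl ℝ p l ^ σ j * ev ℝ p l Q))) := by
    funext c
    simp only [ONE_jet]
    have e1 : ∑ j, PowerSeries.C (α j) * (ψ j * (hl ℝ p c.1 ^ σ j * ev ℝ p c.1 Q)) =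
        (∑ j, PowerSeries.C (α j) * ψ j) * (hl ℝ p c.1 ^ s * ev ℝ p c.1 Q) := by
      rw [sum_mul]
      refine sum_congr rfl fun j _ => ?_
      rcases eq_or_ne (α j) 0 with h | h
      · simp [h]
      · rw [hα j h, mul_assoc]
    rw [e1, PowerSeries.coeff_mul, PowerSeries.coeff_mul]
    refine sum_congr rfl fun x hx => ?_
    rw [HasAntidiagonal.mem_antidiagonal] at hx
    have hc := c.2.2
    rw [hF x.1 (by omega), map_sum]
    congr 1
    refine sum_congr rfl fun j _ => ?_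
    rw [PowerSeries.coeff_C_mul]
  rw [e, ONE_jet_sum]
  refine Submodule.sum_mem _ fun j _ => ?_
  rw [ONE_jet_smul]
  exact Submodule.smul_mem _ _ (rspan_psi M p a n ψ σ j Q hQ)

/-- the rows with `E` instead of the functional lie in the span of the companions -/
theorem rspan_E {J : Type} [Fintype J] (M p a n k r : ℕ) (ψ : J → PowerSeries ℝ) (σ : J → ℕ)
    (E : PowerSeries ℝ)
    (H1 : ∀ r' ≤ r, ∃ α : J → ℝ, (∀ j, α j ≠ 0 → σ j = (k + r') % 2) ∧ ∀ m < a,
      PowerSeries.coeff m (PowerSeries.X ^ k * hs ℝ r' E) =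
        ∑ j, α j * PowerSeries.coeff m (ψ j))
    (f : Polynomial ℝ) (hf : f ∈ Polynomial.degreeLT ℝ n) :
    ONE_jet p a (fun l => PowerSeries.X ^ k *
      hs ℝ r (hl ℝ p l ^ ((k + r) % 2) * ev ℝ p l f * E)) ∈ rspan M p a n ψ σ := by
  have hex : ∀ i, ∃ f' ∈ Polynomial.degreeLT ℝ n, ∀ p l,
      hs ℝ i (hl ℝ p l ^ ((k + r) % 2) * ev ℝ p l f) =
        hl ℝ p l ^ (((k + r) % 2 + i) % 2) * ev ℝ p l f' := fun i =>
    hs_hl_ev n _ i (by omega) f hf
  choose f' hf' hff' using hex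
  have e : (fun l => PowerSeries.X ^ k * hs ℝ r (hl ℝ p l ^ ((k + r) % 2) * ev ℝ p l f * E)) =
      fun l => ∑ x ∈ antidiagonal r, (PowerSeries.X ^ k * hs ℝ x.2 E) *
        (hl ℝ p l ^ (((k + r) % 2 + x.1) % 2) * ev ℝ p l (f' x.1)) := by
    funext l
    rw [hs_mul, mul_sum]
    refine sum_congr rfl fun x _ => ?_
    rw [hff' x.1 p l]
    ring
  rw [e, ONE_jet_sum]
  refine Submodule.sum_mem _ fun x hx => ?_
  rw [HasAntidiagonal.mem_antidiagonal] at hx
  obtain ⟨α, hα, hF⟩ := H1 x.2 (by omega)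
  exact rspan_comb M p a n ψ σ _ (f' x.1) (hf' _) _ α (fun j hj => by
    rw [hα j hj]; omega) hF

/-! ### independence modulo the companions -/

section mod

variable (K : Type*) [Field K] [CharZero K]

theorem cnK_sum_mem (M n : ℕ) (g : Fin n → K) :
    ∑ j : Fin n, Polynomial.C (g j) * Cn K M j ∈ Polynomial.degreeLT K n := by
  refine Submodule.sum_mem _ fun j _ => ?_
  rw [← Polynomial.smul_eq_C_mul]
  exact Submodule.smul_mem _ _ (ONE_Cn_mem K M j n j.2)

noncomputable def cnK_seq (M : ℕ) : Polynomial.Sequence K where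
  elems' := fun j => Cn K M j
  degree_eq' := fun j => Cn_degree K M j

theorem cnK_sum_eq_zero (M n : ℕ) (g : Fin n → K)
    (h : ∑ j : Fin n, Polynomial.C (g j) * Cn K M j = 0) : ∀ j, g j = 0 := by
  have h1 : LinearIndependent K (fun j : Fin n => Cn K M j) :=
    (cnK_seq K M).linearIndependent.comp (fun j : Fin n => (j : ℕ)) Fin.val_injective
  exact Fintype.linearIndependent_iff.1 h1 g (by simpa only [Polynomial.smul_eq_C_mul] using h)

/-- `F` rows independent modulo the companions -/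
theorem one_modK (g S k0 a T : ℕ) (hg : 1 ≤ g) {J : Type} [Fintype J]
    (ψ : J → PowerSeries K) (σ : J → ℕ) (hσ : ∀ j, σ j ≤ 1)
    (hψ : ∀ j, PowerSeries.evalNegHom (ψ j) = PowerSeries.C ((-1 : K) ^ σ j) * ψ j) (z : ℕ → K)
    (hi : (g + 2) * (k0 + 1 + Fintype.card J) + (k0 + 1) * (S + 1) + 1 ≤ g * (a - k0)) :
    ∃ P0 : ℕ, ∀ P ≥ P0, ∀ M, ∀ (c : J × Fin ((g + 2) * P) → K)
      (f : Fin (k0 + 1) × Fin (S + 1) × Fin P → K),
      (∀ l < g * P, ∀ m < a, ∑ x, c x * PowerSeries.coeff m (cRow K M (g * P) ψ σ l x.1 x.2) +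
        ∑ x, f x * PowerSeries.coeff m
          (fRow K M (g * P) ((g + 1) * P) T z l x.1 x.2.1 x.2.2) = 0) → ∀ x, f x = 0 := by
  obtain ⟨P0, hP0⟩ := sik_ze K g S k0 a T hg ψ σ hσ hψ z hi
  refine ⟨P0, fun P hP M c f hrel => ?_⟩
  set e0 : K := (2 : K) ^ (2 * ((g + 1) * P) - 1) * ((bf M (2 * ((g + 1) * P) - 1) : ℕ) : K)⁻¹
    with he0
  have he0' : e0 ≠ 0 := by
    have := bf_pos M (2 * ((g + 1) * P) - 1)
    have h5 : ((bf M (2 * ((g + 1) * P) - 1) : ℕ) : K) ≠ 0 := Nat.cast_ne_zero.2 this.ne'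
    exact mul_ne_zero (pow_ne_zero _ two_ne_zero) (inv_ne_zero h5)
  set fk : Fin (k0 + 1) → Fin (S + 1) → Polynomial K := fun k r =>
    ∑ j : Fin P, Polynomial.C (e0 * f (k, r, j)) * Cn K M j with hfk
  have h1 := hP0 P hP
    (fun j => ∑ i : Fin ((g + 2) * P), Polynomial.C (c (j, i)) * Cn K M i)
    (fun j => cnK_sum_mem K M _ _)
    fk
    (fun k r => cnK_sum_mem K M _ _)
    (by
      intro l hl m hm
      rw [← hrel l hl m hm]
      rw [map_add]
      congr 1
      · rw [map_sum, Fintype.sum_prod_type]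
        refine sum_congr rfl fun j _ => ?_
        rw [ONE_ev_sum, mul_sum, mul_sum, map_sum]
        refine sum_congr rfl fun i _ => ?_
        rw [ONE_ev_mul, ONE_ev_C, ← PowerSeries.coeff_C_mul, cRow]
        congr 1
        ring
      · rw [map_sum, Fintype.sum_prod_type]
        refine sum_congr rfl fun k _ => ?_
        rw [map_sum, Fintype.sum_prod_type]
        refine sum_congr rfl fun r _ => ?_
        have e1 : SI.hl K (g * P) l ^ (((k : ℕ) + r) % 2) *
            ev K (g * P) l (Ap K ((g + 1) * P) * fk k r) * Gh K (g * P) l T z =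
            ∑ j : Fin P, PowerSeries.C (f (k, r, j)) * (SI.hl K (g * P) l ^ (((k : ℕ) + r) % 2) *
              ev K (g * P) l (Am K M ((g + 1) * P) * Cn K M j) * Gh K (g * P) l T z) := by
          rw [hfk, mul_sum, ONE_ev_sum, mul_sum, sum_mul]
          refine sum_congr rfl fun j _ => ?_
          rw [Am, ← he0]
          simp only [ONE_ev_mul, ONE_ev_C]
          rw [map_mul]
          ring
        rw [e1, skhs_sum, mul_sum, map_sum]
        refine sum_congr rfl fun j _ => ?_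
        rw [skhs_C, ← PowerSeries.coeff_C_mul, fRow]
        congr 1
        ring)
  rintro ⟨k, r, j⟩
  have h2 := cnK_sum_eq_zero K M P _ (h1 k r) j
  exact (mul_eq_zero.1 h2).resolve_left he0'

end mod

end Pool.Agent.SK
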